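import Pool.Agent.J4.H52.PMI.Count

/-!
The power means with exponent in [1/2, 1] are monotonic for all Schatten norms.
-/

set_option autoImplicit false

open Matrix MeasureTheory Set
open scoped ComplexOrder ENNReal

namespace Pool.Agent.J4.H52.PMI

open Pool.Agent.N95.PM

variable {n : ℕ}

/-- the integrand for the gap of convexity -/
noncomputable def Ga (r s : ℝ) (A B : Matrix (Fin n) (Fin n) ℂ) (t : ℝ) :
    Matrix (Fin n) (Fin n) ℂ :=
  (t ^ (r - 1) * t⁻¹ * t ^ 2) • (s • res A t + (1 - s) • res B t - res (s • A + (1 - s) • B) t)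

lemma Ga_herm (r s : ℝ) (A B : Matrix (Fin n) (Fin n) ℂ) (t : ℝ) : (Ga r s A B t).IsHermitian :=
  smul_herm _ (((smul_herm _ (res_herm _ _)).add (smul_herm _ (res_herm _ _))).sub (res_herm _ _))

lemma Ga_form (r s : ℝ) (A B : Matrix (Fin n) (Fin n) ℂ) (t : ℝ) (v : Fin n → ℂ) :
    ip v (Ga r s A B t *ᵥ v) = t ^ (r - 1) * t⁻¹ * (t ^ 2 * (s * ip v (res A t *ᵥ v) +
      (1 - s) * ip v (res B t *ᵥ v) - ip v (res (s • A + (1 - s) • B) t *ᵥ v))) := by
  unfold Ga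
  rw [smul_mulVec, sub_mulVec, add_mulVec, smul_mulVec, smul_mulVec, ip_smul_right, ip_sub_right,
    ip_add_right, ip_smul_right, ip_smul_right]
  ring

/-- the integrand for a difference of powers -/
noncomputable def Gb (p : ℝ) (X Y : Matrix (Fin n) (Fin n) ℂ) (t : ℝ) :
    Matrix (Fin n) (Fin n) ℂ := t ^ p • (res Y t - res X t)

lemma Gb_herm (p : ℝ) (X Y : Matrix (Fin n) (Fin n) ℂ) (t : ℝ) : (Gb p X Y t).IsHermitian :=
  smul_herm _ ((res_herm _ _).sub (res_herm _ _))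

lemma Gb_form (p : ℝ) (X Y : Matrix (Fin n) (Fin n) ℂ) (t : ℝ) (v : Fin n → ℂ) :
    ip v (Gb p X Y t *ᵥ v) = t ^ p * (ip v (res Y t *ᵥ v) - ip v (res X t *ᵥ v)) := by
  unfold Gb
  rw [smul_mulVec, sub_mulVec, ip_smul_right, ip_sub_right]

lemma rep_gap {r : ℝ} (hr : r ∈ Ioo (1 : ℝ) 2) {A B : Matrix (Fin n) (Fin n) ℂ}
    (hA : A.PosSemidef) (hB : B.PosSemidef) {s : ℝ} (hs0 : 0 ≤ s) (hs1 : s ≤ 1)
    (v : Fin n → ℂ) :
    IntegrableOn (fun t => ip v (Ga r s A B t *ᵥ v)) (Ioi 0) ∧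
    ip v ((s • mpow A r + (1 - s) • mpow B r - mpow (s • A + (1 - s) • B) r) *ᵥ v) =
      kc (r - 1) * ∫ t in Ioi 0, ip v (Ga r s A B t *ᵥ v) := by
  have hs1' : 0 ≤ 1 - s := by linarith
  have hC : (s • A + (1 - s) • B).PosSemidef := (hA.smul hs0).add (hB.smul hs1')
  obtain ⟨wA, -, a1, a2, a3⟩ := spec hA.1 v
  obtain ⟨wB, -, b1, b2, b3⟩ := spec hB.1 v
  obtain ⟨wC, -, c1, c2, c3⟩ := spec hC.1 v
  have IA := int12 hr wA hA.1.eigenvalues hA.eigenvalues_nonneg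
  have IB := int12 hr wB hB.1.eigenvalues hB.eigenvalues_nonneg
  have IC := int12 hr wC hC.1.eigenvalues hC.eigenvalues_nonneg
  have hcomb : ∀ t ∈ Ioi (0 : ℝ), s * (∑ j, Real.rpowIntegrand₁₂ r t (hA.1.eigenvalues j) * wA j) +
      (1 - s) * (∑ j, Real.rpowIntegrand₁₂ r t (hB.1.eigenvalues j) * wB j) -
      ∑ j, Real.rpowIntegrand₁₂ r t (hC.1.eigenvalues j) * wC j =
      ip v (Ga r s A B t *ᵥ v) := by
    intro t ht
    have ht' : 0 < t := ht
    rw [Ga_form, sum12 hA.1 a1 a2 a3, sum12 hB.1 b1 b2 b3, sum12 hC.1 c1 c2 c3]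
    have : ip v ((s • A + (1 - s) • B) *ᵥ v) = s * ip v (A *ᵥ v) + (1 - s) * ip v (B *ᵥ v) := by
      rw [add_mulVec, smul_mulVec, smul_mulVec, ip_add_right, ip_smul_right, ip_smul_right]
    rw [this]
    field_simp
    ring
  have hI : IntegrableOn (fun t => s * (∑ j, Real.rpowIntegrand₁₂ r t (hA.1.eigenvalues j) * wA j) +
      (1 - s) * (∑ j, Real.rpowIntegrand₁₂ r t (hB.1.eigenvalues j) * wB j) -
      ∑ j, Real.rpowIntegrand₁₂ r t (hC.1.eigenvalues j) * wC j) (Ioi 0) :=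
    ((IA.1.const_mul s).add (IB.1.const_mul (1 - s))).sub IC.1
  constructor
  · exact hI.congr_fun hcomb measurableSet_Ioi
  · rw [sub_mulVec, add_mulVec, smul_mulVec, smul_mulVec, ip_sub_right, ip_add_right,
      ip_smul_right, ip_smul_right]
    unfold mpow
    rw [a3, b3, c3, IA.2, IB.2, IC.2, int_comb IA.1 IB.1 IC.1 s (kc (r - 1)),
      setIntegral_congr_fun measurableSet_Ioi hcomb]

lemma rep_diff {p : ℝ} (hp : p ∈ Ioo (0 : ℝ) 1) {X Y : Matrix (Fin n) (Fin n) ℂ}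
    (hX : X.PosSemidef) (hY : Y.PosSemidef) (v : Fin n → ℂ) :
    IntegrableOn (fun t => ip v (Gb p X Y t *ᵥ v)) (Ioi 0) ∧
    ip v ((mpow X p - mpow Y p) *ᵥ v) = kc p * ∫ t in Ioi 0, ip v (Gb p X Y t *ᵥ v) := by
  obtain ⟨wX, -, a1, -, a3⟩ := spec hX.1 v
  obtain ⟨wY, -, b1, -, b3⟩ := spec hY.1 v
  have IX := int01 hp wX hX.1.eigenvalues hX.eigenvalues_nonneg
  have IY := int01 hp wY hY.1.eigenvalues hY.eigenvalues_nonneg
  have r1 : ∀ t, ∑ j, Real.rpowIntegrand₀₁ p t (hX.1.eigenvalues j) * wX j =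
      t ^ p * (t⁻¹ * ip v v - ip v (res X t *ᵥ v)) := by
    intro t
    rw [← a1, res, a3, Finset.mul_sum, ← Finset.sum_sub_distrib, Finset.mul_sum]
    refine Finset.sum_congr rfl fun j _ => ?_
    unfold Real.rpowIntegrand₀₁
    ring
  have r2 : ∀ t, ∑ j, Real.rpowIntegrand₀₁ p t (hY.1.eigenvalues j) * wY j =
      t ^ p * (t⁻¹ * ip v v - ip v (res Y t *ᵥ v)) := by
    intro t
    rw [← b1, res, b3, Finset.mul_sum, ← Finset.sum_sub_distrib, Finset.mul_sum]
    refine Finset.sum_congr rfl fun j _ => ?_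
    unfold Real.rpowIntegrand₀₁
    ring
  have hcomb : ∀ t ∈ Ioi (0 : ℝ), (∑ j, Real.rpowIntegrand₀₁ p t (hX.1.eigenvalues j) * wX j) -
      ∑ j, Real.rpowIntegrand₀₁ p t (hY.1.eigenvalues j) * wY j = ip v (Gb p X Y t *ᵥ v) := by
    intro t _
    rw [Gb_form, r1, r2]
    ring
  have hI : IntegrableOn (fun t => (∑ j, Real.rpowIntegrand₀₁ p t (hX.1.eigenvalues j) * wX j) -
      ∑ j, Real.rpowIntegrand₀₁ p t (hY.1.eigenvalues j) * wY j) (Ioi 0) := IX.1.sub IY.1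
  constructor
  · exact hI.congr_fun hcomb measurableSet_Ioi
  · rw [sub_mulVec, ip_sub_right]
    unfold mpow
    rw [a3, b3, IX.2, IY.2, ← mul_sub, ← integral_sub IX.1 IY.1,
      setIntegral_congr_fun measurableSet_Ioi hcomb]

/-- Ando's inequality for a power with exponent in (0, 1) -/
theorem ando {p : ℝ} (hp : p ∈ Ioo (0 : ℝ) 1) {X Y : Matrix (Fin n) (Fin n) ℂ}
    (hX : X.PosSemidef) (hY : Y.PosSemidef) {W : Matrix (Fin n) (Fin n) ℂ} (hW : W.IsHermitian)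
    (hWe : W = mpow X p - mpow Y p) {Q : ℝ} (hQ : 1 ≤ Q) :
    ∑ j, |hW.eigenvalues j| ^ Q ≤ ∑ i, (|(hX.1.sub hY.1).eigenvalues i| ^ p) ^ Q := by
  subst hWe
  refine maj (z := fun i => |(hX.1.sub hY.1).eigenvalues i|) (Φ := fun x => x ^ p) hW
    (G := Gb p X Y) (fun t => Gb_herm p X Y t) (kc_nonneg hp)
    (fun v => (rep_diff hp hX hY v).1) (fun v => (rep_diff hp hX hY v).2)
    (φ := fun t x => Real.rpowIntegrand₀₁ p t x)
    (fun t ht => Real.rpowIntegrand₀₁_monotoneOn hp ht.le)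
    (fun x hx => Real.rpow_nonneg hx _) (fun x hx => Real.integrableOn_rpowIntegrand₀₁_Ioi hp hx)
    (fun x hx => Real.rpow_eq_const_mul_integral hp hx) (fun i => abs_nonneg _) ?_ hQ
  intro t ht i
  exact cntB hX hY ht (abs_nonneg _) (t ^ p) (Real.rpow_nonneg ht.le _) (Gb_herm p X Y t)
    (fun v => Gb_form p X Y t v)

/-- the gap of convexity in all norms -/
theorem gapQ {r : ℝ} (hr : r ∈ Ioo (1 : ℝ) 2) {A B : Matrix (Fin n) (Fin n) ℂ}
    (hA : A.PosSemidef) (hB : B.PosSemidef) {s : ℝ} (hs0 : 0 ≤ s) (hs1 : s ≤ 1)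
    {W : Matrix (Fin n) (Fin n) ℂ} (hW : W.IsHermitian)
    (hWe : W = s • mpow A r + (1 - s) • mpow B r - mpow (s • A + (1 - s) • B) r)
    {Q : ℝ} (hQ : 1 ≤ Q) :
    ∑ j, |hW.eigenvalues j| ^ Q ≤
      ∑ i, (s * (1 - s) * |(hA.1.sub hB.1).eigenvalues i| ^ r) ^ Q := by
  subst hWe
  have hs : 0 ≤ s * (1 - s) := mul_nonneg hs0 (by linarith)
  refine maj (z := fun i => |(hA.1.sub hB.1).eigenvalues i|)
    (Φ := fun x => s * (1 - s) * x ^ r) hW
    (G := Ga r s A B) (fun t => Ga_herm r s A B t)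
    (kc_nonneg ⟨by linarith [hr.1], by linarith [hr.2]⟩ : 0 ≤ kc (r - 1))
    (fun v => (rep_gap hr hA hB hs0 hs1 v).1) (fun v => (rep_gap hr hA hB hs0 hs1 v).2)
    (φ := fun t x => s * (1 - s) * Real.rpowIntegrand₁₂ r t x)
    (fun t ht x hx y hy hxy => mul_le_mul_of_nonneg_left
      (Real.monotoneOn_rpowIntegrand₁₂ hr ht hx hy hxy) hs)
    (fun x hx => mul_nonneg hs (Real.rpow_nonneg hx _))
    (fun x hx => (Real.integrableOn_rpowIntegrand₁₂ hr hx).const_mul _)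
    (fun x hx => ?_) (fun i => abs_nonneg _) ?_ hQ
  · rw [integral_const_mul, Real.rpow_eq_const_mul_integral_rpowIntegrand₁₂ hr hx]
    unfold kc
    ring
  · intro t ht i
    have h := cntA hA hB ht (abs_nonneg ((hA.1.sub hB.1).eigenvalues i)) hs0 hs1
      (t ^ (r - 1) * t⁻¹) (by positivity) (Ga_herm r s A B t) (fun v => Ga_form r s A B t v)
    have e : s * (1 - s) * Real.rpowIntegrand₁₂ r t |(hA.1.sub hB.1).eigenvalues i| =
        t ^ (r - 1) * t⁻¹ * (s * (1 - s) * (|(hA.1.sub hB.1).eigenvalues i| ^ 2 /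
          (|(hA.1.sub hB.1).eigenvalues i| + t))) := by
      have hd := abs_nonneg ((hA.1.sub hB.1).eigenvalues i)
      generalize |(hA.1.sub hB.1).eigenvalues i| = d at hd
      unfold Real.rpowIntegrand₁₂
      have : d + t ≠ 0 := by positivity
      have : t + d ≠ 0 := by positivity
      rw [add_comm d t]
      field_simp
      ring
    simp only [e]
    exact h

lemma sch_neg (q : ℝ≥0∞) (M : Matrix (Fin n) (Fin n) ℂ) : schatten q (-M) = schatten q M := by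
  have e : (-M)ᴴ * (-M) = Mᴴ * M := by simp
  have h : singVals (-M) = singVals M := by
    unfold singVals
    simp only [e]
  unfold schatten
  rw [h]

lemma sch_sum {q : ℝ≥0∞} (hq : 1 ≤ q) (hq' : q ≠ ∞) {M : Matrix (Fin n) (Fin n) ℂ}
    (hM : M.IsHermitian) :
    schatten q M = (∑ j, |hM.eigenvalues j| ^ q.toReal) ^ (1 / q.toReal) := by
  have hq0 : 0 < q.toReal := ENNReal.toReal_pos (by positivity) hq'
  rw [schatten_hermitian q hq M hM, PiLp.norm_eq_sum hq0]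
  congr 1
  refine Finset.sum_congr rfl fun j _ => ?_
  simp

/-- the core inequality -/
theorem coreQ {q : ℝ≥0∞} (hq : 1 ≤ q) (hq' : q ≠ ∞) {p : ℝ} (hp1 : 1 / 2 < p) (hp2 : p < 1)
    {A B : Matrix (Fin n) (Fin n) ℂ}
    (hA : A.PosDef) (hB : B.PosDef) {s : ℝ} (hs0 : 0 ≤ s) (hs1 : s ≤ 1) :
    schatten q (mpow (s • A + (1 - s) • B) (1 / p) - mpow B (1 / p)) ≤
      schatten q (mpow A (1 / p) - mpow B (1 / p)) := by
  have hp0 : 0 < p := by linarith
  have hs1' : 0 ≤ 1 - s := by linarith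
  have hs : 0 ≤ s * (1 - s) := mul_nonneg hs0 hs1'
  set r := 1 / p with hr
  have hr1 : 1 < r := by rw [hr, lt_div_iff₀ hp0]; linarith
  have hr2 : r < 2 := by rw [hr, div_lt_iff₀ hp0]; linarith
  have hrp : r * p = 1 := by rw [hr]; field_simp
  have hX := mpow_posSemidef A hA r
  have hY := mpow_posSemidef B hB r
  have hXY : (mpow A r - mpow B r).IsHermitian := hX.1.sub hY.1
  have hXp : mpow (mpow A r) p = A := by rw [mpow_mpow A hA, hrp, mpow_one A hA]
  have hYp : mpow (mpow B r) p = B := by rw [mpow_mpow B hB, hrp, mpow_one B hB]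
  set Q := q.toReal with hQd
  have hQ : 1 ≤ Q := by
    rw [hQd, ← ENNReal.toReal_one]
    exact (ENNReal.toReal_le_toReal (by simp) hq').2 hq
  have hQ0 : 0 < Q := by linarith
  have hRH : (s • mpow A r + (1 - s) • mpow B r - mpow (s • A + (1 - s) • B) r).IsHermitian :=
    ((smul_herm _ hX.1).add (smul_herm _ hY.1)).sub (mpow_isHermitian _ r)
  have g1 := gapQ ⟨hr1, hr2⟩ hA.posSemidef hB.posSemidef hs0 hs1 hRH rfl hQ
  have hrQ : 1 ≤ r * Q := by nlinarith
  have g2 := ando ⟨hp0, hp2⟩ hX hY (hA.1.sub hB.1) (by rw [hXp, hYp]) hrQ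
  have hAB : (hA.posSemidef.1.sub hB.posSemidef.1) = (hA.1.sub hB.1) := rfl
  have e1 : ∑ i, (s * (1 - s) * |(hA.1.sub hB.1).eigenvalues i| ^ r) ^ Q =
      (s * (1 - s)) ^ Q * ∑ i, |(hA.1.sub hB.1).eigenvalues i| ^ (r * Q) := by
    rw [Finset.mul_sum]
    refine Finset.sum_congr rfl fun i _ => ?_
    rw [Real.mul_rpow hs (Real.rpow_nonneg (abs_nonneg _) _), ← Real.rpow_mul (abs_nonneg _)]
  have e2 : ∑ i, (|(hX.1.sub hY.1).eigenvalues i| ^ p) ^ (r * Q) =
      ∑ i, |hXY.eigenvalues i| ^ Q := by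
    refine Finset.sum_congr rfl fun i _ => ?_
    rw [← Real.rpow_mul (abs_nonneg _), ← mul_assoc, mul_comm p r, hrp, one_mul]
  rw [e2] at g2
  have g3 : ∑ j, |hRH.eigenvalues j| ^ Q ≤ (s * (1 - s)) ^ Q * ∑ i, |hXY.eigenvalues i| ^ Q := by
    refine g1.trans (le_of_eq_of_le e1 ?_)
    exact mul_le_mul_of_nonneg_left g2 (Real.rpow_nonneg hs _)
  have hsum0 : 0 ≤ ∑ i, |hXY.eigenvalues i| ^ Q :=
    Finset.sum_nonneg fun i _ => Real.rpow_nonneg (abs_nonneg _) _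
  have g4 : schatten q (s • mpow A r + (1 - s) • mpow B r - mpow (s • A + (1 - s) • B) r) ≤
      s * (1 - s) * schatten q (mpow A r - mpow B r) := by
    rw [sch_sum hq hq' hRH, sch_sum hq hq' hXY, ← hQd]
    have h1 := Real.rpow_le_rpow (Finset.sum_nonneg fun i _ => Real.rpow_nonneg (abs_nonneg _) _)
      g3 (by positivity : 0 ≤ 1 / Q)
    rw [Real.mul_rpow (Real.rpow_nonneg hs _) hsum0, ← Real.rpow_mul hs,
      mul_one_div_cancel hQ0.ne', Real.rpow_one] at h1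
    exact h1
  have hfact : Fact (1 ≤ q) := ⟨hq⟩
  have hn : 0 ≤ schatten q (mpow A r - mpow B r) := norm_nonneg _
  have e3 : mpow (s • A + (1 - s) • B) r - mpow B r = s • (mpow A r - mpow B r) +
      (-(s • mpow A r + (1 - s) • mpow B r - mpow (s • A + (1 - s) • B) r)) := by
    module
  rw [e3]
  have h1 := schatten_add_le q hq _ _ (smul_herm s hXY) hRH.neg
  have h2 := schatten_smul q hq _ hXY s hs0
  rw [sch_neg] at h1
  nlinarith [mul_nonneg (sq_nonneg (1 - s)) hn]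

/-- the exponents in (1/2, 1) -/
theorem mono_midQ {q : ℝ≥0∞} (hq : 1 ≤ q) (hq' : q ≠ ∞) {p : ℝ} (hp1 : 1 / 2 < p) (hp2 : p < 1) :
    PowerMeanMonotonic p q := by
  intro n X Y hX hY s hs t ht hst
  simp only
  have hp0 : 0 < p := by linarith
  have hpd : ∀ Z : Matrix (Fin n) (Fin n) ℂ, Z.PosDef → (mpow Z p).PosDef := by
    intro Z hZ
    refine (mpow_posSemidef Z hZ p).posDef_iff_isUnit.2 ?_
    have : mpow Z p * mpow Z (-p) = 1 := by
      rw [← mpow_add Z hZ, add_neg_cancel]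
      unfold mpow
      simp only [Real.rpow_zero]
      exact cfc_const_one ℝ Z hZ.1.isSelfAdjoint
    exact IsUnit.of_mul_eq_one _ this
  have hAd := hpd X hX
  have hBd := hpd Y hY
  have hYY : mpow (mpow Y p) (1 / p) = Y := by
    rw [mpow_mpow Y hY, mul_one_div_cancel hp0.ne', mpow_one Y hY]
  rcases eq_or_lt_of_le ht.1 with h0 | h0
  · have hs0 : s = t := le_antisymm hst (by rw [← h0]; exact hs.1)
    rw [hs0]
  · unfold powerMean
    generalize mpow X p = A at *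
    generalize mpow Y p = B at *
    rw [← hYY]
    have hT : (t • A + (1 - t) • B).PosDef := by
      rcases eq_or_lt_of_le ht.2 with h1 | h1
      · rw [h1]; simpa using hAd
      · exact (hAd.smul h0).add (hBd.smul (by linarith))
    have hcore := coreQ hq hq' hp1 hp2 hT hBd (div_nonneg hs.1 h0.le) ((div_le_one h0).2 hst)
    have e : (s / t) • (t • A + (1 - t) • B) + (1 - s / t) • B = s • A + (1 - s) • B := by
      rw [smul_add, smul_smul, smul_smul, add_assoc, ← add_smul]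
      congr 2
      · field_simp
      · field_simp
        ring
    rw [e] at hcore
    exact hcore

theorem main_all : ∀ (q : ℝ≥0∞) (p : ℝ), 1 ≤ q → 1 / 2 ≤ p → p ≤ 1 → PowerMeanMonotonic p q := by
  intro q p hq h1 h2
  rcases eq_or_ne q ∞ with rfl | hq'
  · exact main p h1 h2
  · rcases eq_or_lt_of_le h1 with h | h
    · rw [← h]; exact half_monotonic q hq
    · rcases eq_or_lt_of_le h2 with h' | h'
      · rw [h']; exact mono_one q hq
      · exact mono_midQ hq hq' h h'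

end Pool.Agent.J4.H52.PMI
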