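import Mathlib

/-!
Resolvents of two positive matrices at distance at most `d`.
-/

set_option autoImplicit false

open Matrix
open scoped ComplexOrder

namespace Pool.Agent.J4.H52.PMI

variable {n : ℕ}

/-- the real part of the inner product -/
noncomputable def ip (x y : Fin n → ℂ) : ℝ := (star x ⬝ᵥ y).re

lemma ip_add_left (x y z : Fin n → ℂ) : ip (x + y) z = ip x z + ip y z := by
  unfold ip
  rw [star_add, add_dotProduct, Complex.add_re]

lemma ip_add_right (x y z : Fin n → ℂ) : ip x (y + z) = ip x y + ip x z := by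
  unfold ip
  rw [dotProduct_add, Complex.add_re]

lemma ip_smul_left (c : ℝ) (x y : Fin n → ℂ) : ip (c • x) y = c * ip x y := by
  unfold ip
  rw [star_smul, smul_dotProduct]
  simp

lemma ip_smul_right (c : ℝ) (x y : Fin n → ℂ) : ip x (c • y) = c * ip x y := by
  unfold ip
  rw [dotProduct_smul]
  simp

lemma ip_sub_left (x y z : Fin n → ℂ) : ip (x - y) z = ip x z - ip y z := by
  unfold ip
  rw [star_sub, sub_dotProduct, Complex.sub_re]

lemma ip_sub_right (x y z : Fin n → ℂ) : ip x (y - z) = ip x y - ip x z := by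
  unfold ip
  rw [dotProduct_sub, Complex.sub_re]

lemma ip_comm (x y : Fin n → ℂ) : ip x y = ip y x := by
  unfold ip
  rw [dotProduct, dotProduct, Complex.re_sum, Complex.re_sum]
  refine Finset.sum_congr rfl fun i _ => ?_
  simp only [Pi.star_apply, RCLike.star_def, Complex.mul_re, Complex.conj_re, Complex.conj_im]
  ring

lemma ip_self_nonneg (x : Fin n → ℂ) : 0 ≤ ip x x := by
  unfold ip
  rw [dotProduct, Complex.re_sum]
  refine Finset.sum_nonneg fun i _ => ?_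
  simp only [Pi.star_apply, RCLike.star_def]
  rw [← Complex.normSq_eq_conj_mul_self, Complex.ofReal_re]
  exact Complex.normSq_nonneg _

lemma ip_mulVec {M : Matrix (Fin n) (Fin n) ℂ} (hM : M.IsHermitian) (x y : Fin n → ℂ) :
    ip (M *ᵥ x) y = ip x (M *ᵥ y) := by
  unfold ip
  rw [star_mulVec, hM.eq, dotProduct_mulVec]

lemma quad {M : Matrix (Fin n) (Fin n) ℂ} (hM : M.IsHermitian) (x y : Fin n → ℂ) (a b : ℝ) :
    ip (a • x + b • y) (M *ᵥ (a • x + b • y)) =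
      a ^ 2 * ip x (M *ᵥ x) + 2 * a * b * ip x (M *ᵥ y) + b ^ 2 * ip y (M *ᵥ y) := by
  have h : ip y (M *ᵥ x) = ip x (M *ᵥ y) := by
    rw [← ip_mulVec hM, ip_comm]
  rw [mulVec_add, mulVec_smul, mulVec_smul]
  simp only [ip_add_left, ip_add_right, ip_smul_left, ip_smul_right, h]
  ring

/-- the certificate -/
lemma cert {P Q : Matrix (Fin n) (Fin n) ℂ} (hP : P.IsHermitian) (hQ : Q.IsHermitian)
    {d t : ℝ} (hd : 0 < d) (ht : 0 < t)
    (h1 : ∀ x, t * ip x (Q *ᵥ x) ≤ (d + t) * ip x (P *ᵥ x))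
    (h2 : ∀ x, t * ip x (P *ᵥ x) ≤ (d + t) * ip x (Q *ᵥ x)) (x g : Fin n → ℂ) :
    t * (d + t) * (2 * (ip x (P *ᵥ g) - ip x (Q *ᵥ g)) - ip g (Q *ᵥ g)) ≤
      d ^ 2 * ip x (P *ᵥ x) := by
  have e1 := h1 (d • x + (-t) • g)
  have e2 := h2 (d • x + (d + t) • g)
  rw [quad hP, quad hQ] at e1 e2
  have hpos : 0 < d * (d + 2 * t) := by positivity
  have key : 0 ≤ d * (d + 2 * t) * (d ^ 2 * ip x (P *ᵥ x) -
      t * (d + t) * (2 * (ip x (P *ᵥ g) - ip x (Q *ᵥ g)) - ip g (Q *ᵥ g))) := by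
    have e3 := mul_le_mul_of_nonneg_left e1 (by positivity : 0 ≤ d + t)
    have e4 := mul_le_mul_of_nonneg_left e2 ht.le
    nlinarith [e3, e4]
  have := nonneg_of_mul_nonneg_right key hpos
  linarith

/-- one resolvent difference -/
lemma stepB {P Q : Matrix (Fin n) (Fin n) ℂ} (hP : P.IsHermitian) (hQ : Q.IsHermitian)
    {d t : ℝ} (hd : 0 < d) (ht : 0 < t)
    (h1 : ∀ x, t * ip x (Q *ᵥ x) ≤ (d + t) * ip x (P *ᵥ x))
    (h2 : ∀ x, t * ip x (P *ᵥ x) ≤ (d + t) * ip x (Q *ᵥ x))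
    (hQt : ∀ x, t * ip x x ≤ ip x (Q *ᵥ x)) {a b v g : Fin n → ℂ}
    (ha : P *ᵥ a = v) (hb : Q *ᵥ b = v) (hg : Q *ᵥ g = P *ᵥ (a - b) - Q *ᵥ (a - b)) :
    t ^ 2 * ip (a - b) (P *ᵥ (a - b)) ≤ d ^ 2 / (d + t) * ip v v := by
  have c := cert hP hQ hd ht h1 h2 (a - b) g
  set x := a - b with hx
  -- T = - ⟨g, v⟩
  have hT : ip x (P *ᵥ x) = - ip g v := by
    have e1 : P *ᵥ x = - (P *ᵥ b - Q *ᵥ b) := by
      rw [hx, mulVec_sub, ha, hb]; abel
    have e2 : ip g v = ip (Q *ᵥ g) b := by rw [ip_mulVec hQ, hb]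
    have e3 : ip (P *ᵥ x - Q *ᵥ x) b = ip x (P *ᵥ b) - ip x (Q *ᵥ b) := by
      rw [ip_sub_left (P *ᵥ x) (Q *ᵥ x) b, ip_mulVec hP, ip_mulVec hQ]
    rw [e2, hg, e3, e1, neg_sub, ip_sub_right]
    ring
  have hgg : ip x (P *ᵥ g) - ip x (Q *ᵥ g) = ip g (Q *ᵥ g) := by
    have f1 : ip g (P *ᵥ x) = ip x (P *ᵥ g) := by rw [← ip_mulVec hP, ip_comm]
    have f2 : ip g (Q *ᵥ x) = ip x (Q *ᵥ g) := by rw [← ip_mulVec hQ, ip_comm]
    have f3 : ip g (Q *ᵥ g) = ip g (P *ᵥ x) - ip g (Q *ᵥ x) := by rw [hg, ip_sub_right]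
    rw [f3, f1, f2]
  rw [hgg] at c
  have hg2 := hQt g
  set T := ip x (P *ᵥ x) with hTd
  have c2 : t * (d + t) * (t * ip g g) ≤ d ^ 2 * T := by
    have : t * (d + t) * (t * ip g g) ≤ t * (d + t) * ip g (Q *ᵥ g) :=
      mul_le_mul_of_nonneg_left hg2 (by positivity)
    linarith
  -- AM-GM
  have h3 := ip_self_nonneg ((t ^ 2 * (d + t)) • g + (d ^ 2) • v)
  simp only [ip_add_left, ip_add_right, ip_smul_left, ip_smul_right] at h3
  have h4 : ip v g = ip g v := ip_comm _ _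
  rw [h4] at h3
  have h5 : t ^ 2 * (d + t) * (d ^ 2 * T) ≤ d ^ 4 * ip v v := by
    have h6 : ip g v = -T := by linarith
    rw [h6] at h3
    have h7 := mul_le_mul_of_nonneg_left c2 (by positivity : 0 ≤ t ^ 2 * (d + t))
    nlinarith [h3, h7]
  rw [div_mul_eq_mul_div, le_div_iff₀ (by positivity)]
  have h8 : d ^ 2 * (t ^ 2 * T * (d + t)) ≤ d ^ 2 * (d ^ 2 * ip v v) := by nlinarith [h5]
  exact le_of_mul_le_mul_left h8 (by positivity)

/-- the gap of convexity of the resolvent -/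
lemma gap {P Q : Matrix (Fin n) (Fin n) ℂ} (hP : P.IsHermitian) (hQ : Q.IsHermitian)
    {s : ℝ} (hs0 : 0 ≤ s) (hs1 : s ≤ 1)
    (hPp : ∀ x, 0 ≤ ip x (P *ᵥ x)) (hQp : ∀ x, 0 ≤ ip x (Q *ᵥ x)) {a b c v : Fin n → ℂ}
    (ha : P *ᵥ a = v) (hb : Q *ᵥ b = v) (hc : (s • P + (1 - s) • Q) *ᵥ c = v) :
    0 ≤ s * ip v a + (1 - s) * ip v b - ip v c ∧
    s * ip v a + (1 - s) * ip v b - ip v c ≤
      s * (1 - s) * ((1 - s) * ip (a - b) (P *ᵥ (a - b)) + s * ip (a - b) (Q *ᵥ (a - b))) := by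
  have hC : ∀ x, ip x ((s • P + (1 - s) • Q) *ᵥ x) = s * ip x (P *ᵥ x) + (1 - s) * ip x (Q *ᵥ x) := by
    intro x
    rw [add_mulVec, smul_mulVec, smul_mulVec, ip_add_right, ip_smul_right, ip_smul_right]
  have hcc : ip c v = s * ip c (P *ᵥ c) + (1 - s) * ip c (Q *ᵥ c) := by
    rw [← hC, hc]
  have k1 : ip v a = ip a (P *ᵥ a) := by rw [ha, ip_comm]
  have k2 : ip v b = ip b (Q *ᵥ b) := by rw [hb, ip_comm]
  have k3 : ip v c = ip c v := ip_comm _ _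
  have k4 : ip c (P *ᵥ a) = ip c v := by rw [ha]
  have k5 : ip c (Q *ᵥ b) = ip c v := by rw [hb]
  constructor
  · have q1 := hPp ((1 : ℝ) • c + (-1 : ℝ) • a)
    have q2 := hQp ((1 : ℝ) • c + (-1 : ℝ) • b)
    rw [quad hP, k4] at q1
    rw [quad hQ, k5] at q2
    have q3 := mul_nonneg hs0 q1
    have q4 := mul_nonneg (by linarith : 0 ≤ 1 - s) q2
    nlinarith [q3, q4]
  · -- w = s a + (1 - s) b
    set w := s • a + (1 - s) • b with hw
    have hCH : (s • P + (1 - s) • Q).IsHermitian := by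
      have : ∀ (r : ℝ) (M : Matrix (Fin n) (Fin n) ℂ), M.IsHermitian → (r • M).IsHermitian := by
        intro r M hM
        rw [Matrix.IsHermitian, Matrix.conjTranspose_smul, hM.eq]
        simp
      exact (this _ _ hP).add (this _ _ hQ)
    have q : 0 ≤ ip ((1 : ℝ) • c + (-1 : ℝ) • w) ((s • P + (1 - s) • Q) *ᵥ ((1 : ℝ) • c + (-1 : ℝ) • w)) := by
      rw [hC]
      exact add_nonneg (mul_nonneg hs0 (hPp _)) (mul_nonneg (by linarith) (hQp _))
    rw [quad hCH, hc] at q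
    have q1 : ip c ((s • P + (1 - s) • Q) *ᵥ w) = ip v w := by
      rw [← ip_mulVec hCH, hc]
    rw [q1, hC w] at q
    have w1 : ip w (P *ᵥ w) = s ^ 2 * ip a (P *ᵥ a) + 2 * s * (1 - s) * ip a (P *ᵥ b) +
        (1 - s) ^ 2 * ip b (P *ᵥ b) := quad hP a b s (1 - s)
    have w2 : ip w (Q *ᵥ w) = s ^ 2 * ip a (Q *ᵥ a) + 2 * s * (1 - s) * ip a (Q *ᵥ b) +
        (1 - s) ^ 2 * ip b (Q *ᵥ b) := quad hQ a b s (1 - s)
    have w3 : ip v w = s * ip v a + (1 - s) * ip v b := by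
      rw [hw, ip_add_right, ip_smul_right, ip_smul_right]
    have w4 : ip a (P *ᵥ b) = ip v b := by rw [← ip_mulVec hP, ha]
    have w5 : ip a (Q *ᵥ b) = ip v a := by rw [hb, ip_comm]
    have ab : a - b = (1 : ℝ) • a + (-1 : ℝ) • b := by rw [one_smul, neg_one_smul, sub_eq_add_neg]
    rw [ab, quad hP, quad hQ, w4, w5]
    rw [w1, w2, w3, w4, w5] at q
    nlinarith [q, k1, k2, k3]

end Pool.Agent.J4.H52.PMI
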