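import Pool.Agent.J4.H52.PMI.Maj

/-!
Counting the eigenvalues of differences of resolvents.
-/

set_option autoImplicit false

open Matrix MeasureTheory Set
open scoped ComplexOrder ENNReal

namespace Pool.Agent.J4.H52.PMI

open Pool.Agent.N95.PM

variable {n : ℕ}

lemma resM {M : Matrix (Fin n) (Fin n) ℂ} (hM : M.PosSemidef) {t : ℝ} (ht : 0 < t) :
    (M + t • (1 : Matrix (Fin n) (Fin n) ℂ)) * res M t = 1 := by
  have h : ∀ v, ((M + t • (1 : Matrix (Fin n) (Fin n) ℂ)) * res M t) *ᵥ v = v := by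
    intro v
    rw [← mulVec_mulVec]
    exact res_mul hM ht v
  ext i j
  have := congrFun (h (Pi.single j 1)) i
  rw [mulVec_single_one] at this
  rw [Matrix.one_apply, ← Pi.single_apply j (1 : ℂ) i] at *
  exact this

lemma res_unique {M : Matrix (Fin n) (Fin n) ℂ} (hM : M.PosSemidef) {t : ℝ} (ht : 0 < t)
    {x v : Fin n → ℂ} (h : (M + t • (1 : Matrix (Fin n) (Fin n) ℂ)) *ᵥ x = v) :
    res M t *ᵥ v = x := by
  rw [← h, mulVec_mulVec, mul_eq_one_comm.1 (resM hM ht), one_mulVec]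

lemma res_herm (M : Matrix (Fin n) (Fin n) ℂ) (t : ℝ) : (res M t).IsHermitian :=
  (cfc_predicate (R := ℝ) (p := IsSelfAdjoint) (fun x : ℝ => (t + x)⁻¹) M).isHermitian

lemma cfc_psd (M : Matrix (Fin n) (Fin n) ℂ) {f : ℝ → ℝ} (hf : ∀ x, 0 ≤ f x) :
    (cfc f M).PosSemidef := by
  have h1 : (cfc (fun x => Real.sqrt (f x)) M).IsHermitian :=
    (cfc_predicate (R := ℝ) (p := IsSelfAdjoint) (fun x : ℝ => Real.sqrt (f x)) M).isHermitian
  have h : cfc f M = (cfc (fun x => Real.sqrt (f x)) M)ᴴ * cfc (fun x => Real.sqrt (f x)) M := by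
    rw [h1.eq, ← cfc_mul _ _ M (cont_spec _ _) (cont_spec _ _)]
    exact cfc_congr fun x _ => (Real.mul_self_sqrt (hf x)).symm
  rw [h]
  exact posSemidef_conjTranspose_mul_self _

/-- a function of a matrix kills a vector -/
lemma cfc_kill {Z : Matrix (Fin n) (Fin n) ℂ} (hZ : Z.IsHermitian) (f : ℝ → ℝ) (y : Fin n → ℂ)
    (h : ∀ i, f (hZ.eigenvalues i) = 0 ∨
      ((hZ.eigenvectorUnitary : Matrix (Fin n) (Fin n) ℂ)ᴴ *ᵥ y) i = 0) :
    cfc f Z *ᵥ y = 0 := by
  have hcf : cfc f Z = (hZ.eigenvectorUnitary : Matrix (Fin n) (Fin n) ℂ) *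
      diagonal (fun j => ((f (hZ.eigenvalues j) : ℝ) : ℂ)) *
      (hZ.eigenvectorUnitary : Matrix (Fin n) (Fin n) ℂ)ᴴ := by
    rw [hZ.cfc_eq f]
    unfold IsHermitian.cfc
    rw [Unitary.conjStarAlgAut_apply]
    rfl
  rw [hcf, ← mulVec_mulVec, ← mulVec_mulVec]
  have : diagonal (fun j => ((f (hZ.eigenvalues j) : ℝ) : ℂ)) *ᵥ
      ((hZ.eigenvectorUnitary : Matrix (Fin n) (Fin n) ℂ)ᴴ *ᵥ y) = 0 := by
    funext i
    rw [mulVec_diagonal]
    rcases h i with h | h
    · rw [h]; simp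
    · rw [h]; simp
  rw [this, mulVec_zero]

/-- the positive parts -/
noncomputable def up (δ x : ℝ) : ℝ := max (x - δ) 0

noncomputable def lo (δ x : ℝ) : ℝ := max (-x - δ) 0

lemma up_nonneg (δ x : ℝ) : 0 ≤ up δ x := le_max_right _ _

lemma lo_nonneg (δ x : ℝ) : 0 ≤ lo δ x := le_max_right _ _

lemma form_le_of {Z : Matrix (Fin n) (Fin n) ℂ} (hZ : Z.IsHermitian) (f g : ℝ → ℝ)
    (h : ∀ x, f x ≤ g x) (x : Fin n → ℂ) : ip x (cfc f Z *ᵥ x) ≤ ip x (cfc g Z *ᵥ x) := by
  obtain ⟨w, w0, -, -, w3⟩ := spec hZ x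
  rw [w3, w3]
  exact Finset.sum_le_sum fun j _ => mul_le_mul_of_nonneg_right (h _) (w0 j)

lemma form_id {Z : Matrix (Fin n) (Fin n) ℂ} (hZ : Z.IsHermitian) (x : Fin n → ℂ) (δ : ℝ) :
    ip x (Z *ᵥ x) ≤ ip x (cfc (up δ) Z *ᵥ x) + δ * ip x x ∧
    -ip x (Z *ᵥ x) ≤ ip x (cfc (lo δ) Z *ᵥ x) + δ * ip x x := by
  obtain ⟨w, w0, w1, w2, w3⟩ := spec hZ x
  rw [w3, w3, ← w1, ← w2, Finset.mul_sum, ← Finset.sum_add_distrib, ← Finset.sum_add_distrib,
    ← Finset.sum_neg_distrib]
  constructor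
  · refine Finset.sum_le_sum fun j _ => ?_
    rw [← add_mul]
    refine mul_le_mul_of_nonneg_right ?_ (w0 j)
    have := le_max_left (hZ.eigenvalues j - δ) 0
    unfold up
    linarith
  · refine Finset.sum_le_sum fun j _ => ?_
    rw [← add_mul, ← neg_mul]
    refine mul_le_mul_of_nonneg_right ?_ (w0 j)
    have := le_max_left (-hZ.eigenvalues j - δ) 0
    unfold lo
    linarith

/-- one sided bound on the constrained space -/
lemma formB {X Y E : Matrix (Fin n) (Fin n) ℂ} (hX : X.PosSemidef) (hY : Y.PosSemidef)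
    (hE : E.PosSemidef) {t δ : ℝ} (ht : 0 < t) (hδ : 0 ≤ δ)
    (h : ∀ x, ip x (X *ᵥ x) ≤ ip x (Y *ᵥ x) + ip x (E *ᵥ x) + δ * ip x x) {v : Fin n → ℂ}
    (hv : E *ᵥ (res Y (t + δ) *ᵥ v) = 0) :
    ip v (res Y t *ᵥ v) - ip v (res X t *ᵥ v) ≤ (t⁻¹ - (t + δ)⁻¹) * ip v v := by
  have htd : 0 < t + δ := by linarith
  have hYE : (Y + E).PosSemidef := hY.add hE
  have h1 : res (Y + E) (t + δ) *ᵥ v = res Y (t + δ) *ᵥ v := by
    refine res_unique hYE htd ?_
    have : Y + E + (t + δ) • (1 : Matrix (Fin n) (Fin n) ℂ) =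
        (Y + (t + δ) • (1 : Matrix (Fin n) (Fin n) ℂ)) + E := by abel
    rw [this, add_mulVec, res_mul hY htd, hv, add_zero]
  have h2 := res_anti hX hYE ht hδ (fun x => by
    rw [add_mulVec, ip_add_right]
    exact h x) v
  rw [h1] at h2
  have h3 : ip v (res Y t *ᵥ v) - ip v (res Y (t + δ) *ᵥ v) ≤ (t⁻¹ - (t + δ)⁻¹) * ip v v := by
    obtain ⟨w, w0, w1, -, w3⟩ := spec hY.1 v
    rw [res, res, w3, w3, ← w1, Finset.mul_sum, ← Finset.sum_sub_distrib]
    refine Finset.sum_le_sum fun j _ => ?_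
    rw [← sub_mul]
    refine mul_le_mul_of_nonneg_right ?_ (w0 j)
    have hy := hY.eigenvalues_nonneg j
    set y := hY.1.eigenvalues j
    have p1 : 0 < t + y := by linarith
    have p2 : 0 < t + δ + y := by linarith
    rw [inv_sub_inv p1.ne' p2.ne', inv_sub_inv ht.ne' htd.ne']
    have e1 : t + δ + y - (t + y) = δ := by ring
    have e2 : t + δ - t = δ := by ring
    rw [e1, e2]
    refine div_le_div_of_nonneg_left hδ (by positivity) ?_
    nlinarith [mul_nonneg ht.le hy, mul_nonneg hδ hy, mul_nonneg hy hy]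
  linarith

/-- the linear constraints -/
noncomputable def con (U : Matrix (Fin n) (Fin n) ℂ) (R : Fin n → Matrix (Fin n) (Fin n) ℂ)
    (q : Fin n → Prop) : (Fin n → ℂ) →ₗ[ℂ] ({i // q i} → ℂ) where
  toFun v i := (Uᴴ *ᵥ (R i.1 *ᵥ v)) i.1
  map_add' x y := by
    funext i
    rw [Pi.add_apply, mulVec_add, mulVec_add, Pi.add_apply]
  map_smul' a x := by
    funext i
    rw [Pi.smul_apply, mulVec_smul, mulVec_smul, Pi.smul_apply, RingHom.id_apply]

lemma con_apply (U : Matrix (Fin n) (Fin n) ℂ) (R : Fin n → Matrix (Fin n) (Fin n) ℂ)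
    (q : Fin n → Prop) {v : Fin n → ℂ} (h : con U R q v = 0) (i : Fin n) (hi : q i) :
    (Uᴴ *ᵥ (R i *ᵥ v)) i = 0 := congrFun h ⟨i, hi⟩

/-- counting for the powers with exponent in (0,1) -/
lemma cntB {X Y : Matrix (Fin n) (Fin n) ℂ} (hX : X.PosSemidef) (hY : Y.PosSemidef)
    {t δ : ℝ} (ht : 0 < t) (hδ : 0 ≤ δ) (κ : ℝ) (hκ : 0 ≤ κ) {G : Matrix (Fin n) (Fin n) ℂ}
    (hG : G.IsHermitian)
    (hGf : ∀ v, ip v (G *ᵥ v) = κ * (ip v (res Y t *ᵥ v) - ip v (res X t *ᵥ v))) :
    (Finset.univ.filter (fun j => κ * (t⁻¹ - (t + δ)⁻¹) < |hG.eigenvalues j|)).card ≤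
      (Finset.univ.filter (fun j => δ < |(hX.1.sub hY.1).eigenvalues j|)).card := by
  classical
  have hZ : (X - Y).IsHermitian := hX.1.sub hY.1
  set ζ := hZ.eigenvalues with hζ
  set U : Matrix (Fin n) (Fin n) ℂ := (hZ.eigenvectorUnitary : Matrix (Fin n) (Fin n) ℂ) with hU
  have hZf : ∀ x, ip x ((X - Y) *ᵥ x) = ip x (X *ᵥ x) - ip x (Y *ᵥ x) := by
    intro x
    rw [sub_mulVec, ip_sub_right]
  have c1 := count_le hG (con U (fun _ => res Y (t + δ)) (fun i => δ < ζ i))
    (κ * (t⁻¹ - (t + δ)⁻¹)) 1 (fun v hv => by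
      have k1 : cfc (up δ) (X - Y) *ᵥ (res Y (t + δ) *ᵥ v) = 0 := by
        refine cfc_kill hZ _ _ fun i => ?_
        by_cases hi : δ < ζ i
        · right; exact con_apply U _ _ hv i hi
        · left
          exact max_eq_right (by linarith [not_lt.1 hi])
      have k2 := formB hX hY (cfc_psd (X - Y) (up_nonneg δ)) ht hδ (fun x => by
        have := (form_id hZ x δ).1
        rw [hZf] at this
        linarith) k1
      rw [one_mul, hGf, mul_assoc]
      exact mul_le_mul_of_nonneg_left k2 hκ)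
  have c2 := count_le hG (con U (fun _ => res X (t + δ)) (fun i => δ < -ζ i))
    (κ * (t⁻¹ - (t + δ)⁻¹)) (-1) (fun v hv => by
      have k1 : cfc (lo δ) (X - Y) *ᵥ (res X (t + δ) *ᵥ v) = 0 := by
        refine cfc_kill hZ _ _ fun i => ?_
        by_cases hi : δ < -ζ i
        · right; exact con_apply U _ _ hv i hi
        · left
          exact max_eq_right (by linarith [not_lt.1 hi])
      have k2 := formB hY hX (cfc_psd (X - Y) (lo_nonneg δ)) ht hδ (fun x => by
        have := (form_id hZ x δ).2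
        rw [hZf] at this
        linarith) k1
      rw [hGf, mul_assoc κ]
      have := mul_le_mul_of_nonneg_left k2 hκ
      linarith)
  rw [Fintype.card_subtype] at c1 c2
  have h1 : (Finset.univ.filter (fun j => κ * (t⁻¹ - (t + δ)⁻¹) < |hG.eigenvalues j|)) ⊆
      (Finset.univ.filter (fun j => κ * (t⁻¹ - (t + δ)⁻¹) < 1 * hG.eigenvalues j)) ∪
      (Finset.univ.filter (fun j => κ * (t⁻¹ - (t + δ)⁻¹) < -1 * hG.eigenvalues j)) := by
    intro j hj
    rw [Finset.mem_filter, lt_abs] at hj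
    rw [Finset.mem_union, Finset.mem_filter, Finset.mem_filter]
    rcases hj.2 with h | h
    · left; exact ⟨Finset.mem_univ _, by linarith⟩
    · right; exact ⟨Finset.mem_univ _, by linarith⟩
  have h2 : (Finset.univ.filter (fun j => δ < ζ j)) ∪ (Finset.univ.filter (fun j => δ < -ζ j)) ⊆
      (Finset.univ.filter (fun j => δ < |ζ j|)) := by
    intro j hj
    rw [Finset.mem_union, Finset.mem_filter, Finset.mem_filter] at hj
    rw [Finset.mem_filter, lt_abs]
    rcases hj with h | h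
    · exact ⟨Finset.mem_univ _, Or.inl h.2⟩
    · exact ⟨Finset.mem_univ _, Or.inr h.2⟩
  have h3 : Disjoint (Finset.univ.filter (fun j => δ < ζ j)) (Finset.univ.filter (fun j => δ < -ζ j)) := by
    rw [Finset.disjoint_left]
    intro j hj hj2
    rw [Finset.mem_filter] at hj hj2
    linarith [hj.2, hj2.2]
  calc _ ≤ _ := Finset.card_le_card h1
    _ ≤ _ := Finset.card_union_le _ _
    _ ≤ _ := add_le_add c1 c2
    _ = _ := (Finset.card_union_of_disjoint h3).symm
    _ ≤ _ := Finset.card_le_card h2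

/-- the resolvents at one point, distance possibly zero -/
lemma pointwise0 {A B : Matrix (Fin n) (Fin n) ℂ} (hA : A.PosSemidef) (hB : B.PosSemidef)
    {d t s : ℝ} (hd : 0 ≤ d) (ht : 0 < t) (hs0 : 0 ≤ s) (hs1 : s ≤ 1)
    (h1 : ∀ x, ip x (A *ᵥ x) ≤ ip x (B *ᵥ x) + d * ip x x)
    (h2 : ∀ x, ip x (B *ᵥ x) ≤ ip x (A *ᵥ x) + d * ip x x) (v : Fin n → ℂ) :
    t ^ 2 * (s * ip v (res A t *ᵥ v) + (1 - s) * ip v (res B t *ᵥ v) -
      ip v (res (s • A + (1 - s) • B) t *ᵥ v)) ≤ s * (1 - s) * (d ^ 2 / (d + t) * ip v v) := by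
  have hnn := fun x : Fin n → ℂ => ip_self_nonneg x
  refine le_of_forall_pos_le_add fun η hη => ?_
  have hK : 0 ≤ s * (1 - s) * ip v v := by
    have : 0 ≤ 1 - s := by linarith
    have := hnn v
    positivity
  obtain ⟨ε, hε, hεη⟩ : ∃ ε : ℝ, 0 < ε ∧ s * (1 - s) * ip v v * ε ≤ η := by
    refine ⟨η / (s * (1 - s) * ip v v + 1), by positivity, ?_⟩
    rw [mul_div_assoc', div_le_iff₀ (by positivity)]
    nlinarith
  have h := (pointwise hA hB (by linarith : 0 < d + ε) ht hs0 hs1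
    (fun x => (h1 x).trans (by nlinarith [mul_nonneg hε.le (hnn x)]))
    (fun x => (h2 x).trans (by nlinarith [mul_nonneg hε.le (hnn x)])) v).2
  have hsc : (d + ε) ^ 2 / (d + ε + t) ≤ d ^ 2 / (d + t) + ε := by
    have p1 : 0 < d + ε + t := by linarith
    have p2 : 0 < d + t := by linarith
    rw [div_add' _ _ _ p2.ne', div_le_div_iff₀ p1 p2]
    nlinarith [mul_nonneg hd hε.le, mul_nonneg hε.le ht.le, mul_nonneg hd ht.le, mul_pos hε hε,
      mul_nonneg (mul_nonneg hd hε.le) ht.le, mul_nonneg (mul_nonneg hε.le hε.le) ht.le,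
      mul_nonneg hε.le (mul_nonneg ht.le ht.le), mul_nonneg (mul_nonneg hd hd) hε.le]
  calc _ ≤ s * (1 - s) * ((d + ε) ^ 2 / (d + ε + t) * ip v v) := h
    _ = s * (1 - s) * ip v v * ((d + ε) ^ 2 / (d + ε + t)) := by ring
    _ ≤ s * (1 - s) * ip v v * (d ^ 2 / (d + t) + ε) := mul_le_mul_of_nonneg_left hsc hK
    _ = s * (1 - s) * (d ^ 2 / (d + t) * ip v v) + s * (1 - s) * ip v v * ε := by ring
    _ ≤ _ := by linarith

/-- counting for the gap of convexity -/
lemma cntA {A B : Matrix (Fin n) (Fin n) ℂ} (hA : A.PosSemidef) (hB : B.PosSemidef)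
    {t δ s : ℝ} (ht : 0 < t) (hδ : 0 ≤ δ) (hs0 : 0 ≤ s) (hs1 : s ≤ 1) (κ : ℝ) (hκ : 0 ≤ κ)
    {G : Matrix (Fin n) (Fin n) ℂ} (hG : G.IsHermitian)
    (hGf : ∀ v, ip v (G *ᵥ v) = κ * (t ^ 2 * (s * ip v (res A t *ᵥ v) +
      (1 - s) * ip v (res B t *ᵥ v) - ip v (res (s • A + (1 - s) • B) t *ᵥ v)))) :
    (Finset.univ.filter (fun j => κ * (s * (1 - s) * (δ ^ 2 / (δ + t))) <
      |hG.eigenvalues j|)).card ≤
      (Finset.univ.filter (fun j => δ < |(hA.1.sub hB.1).eigenvalues j|)).card := by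
  classical
  have hs1' : 0 ≤ 1 - s := by linarith
  have hZ : (A - B).IsHermitian := hA.1.sub hB.1
  set ζ := hZ.eigenvalues with hζ
  set U : Matrix (Fin n) (Fin n) ℂ := (hZ.eigenvectorUnitary : Matrix (Fin n) (Fin n) ℂ) with hU
  have hZf : ∀ x, ip x ((A - B) *ᵥ x) = ip x (A *ᵥ x) - ip x (B *ᵥ x) := by
    intro x
    rw [sub_mulVec, ip_sub_right]
  have hC : (s • A + (1 - s) • B).PosSemidef := (hA.smul hs0).add (hB.smul hs1')
  have c1 := count_le hG (con U (fun i => if 0 ≤ ζ i then res B t else res A t)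
    (fun i => δ < |ζ i|)) (κ * (s * (1 - s) * (δ ^ 2 / (δ + t)))) 1 (fun v hv => by
      have kA : cfc (lo δ) (A - B) *ᵥ (res A t *ᵥ v) = 0 := by
        refine cfc_kill hZ _ _ fun i => ?_
        by_cases hi : δ < -ζ i
        · right
          have := con_apply U _ _ hv i (lt_abs.2 (Or.inr hi))
          rwa [if_neg (by linarith : ¬ 0 ≤ ζ i)] at this
        · left
          exact max_eq_right (by linarith [not_lt.1 hi])
      have kB : cfc (up δ) (A - B) *ᵥ (res B t *ᵥ v) = 0 := by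
        refine cfc_kill hZ _ _ fun i => ?_
        by_cases hi : δ < ζ i
        · right
          have := con_apply U _ _ hv i (lt_abs.2 (Or.inl hi))
          rwa [if_pos (by linarith : 0 ≤ ζ i)] at this
        · left
          exact max_eq_right (by linarith [not_lt.1 hi])
      have pA := cfc_psd (A - B) (lo_nonneg δ)
      have pB := cfc_psd (A - B) (up_nonneg δ)
      set E1 := cfc (lo δ) (A - B) with hE1
      set E2 := cfc (up δ) (A - B) with hE2
      have hA' : (A + E1).PosSemidef := hA.add pA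
      have hB' : (B + E2).PosSemidef := hB.add pB
      have rA : res (A + E1) t *ᵥ v = res A t *ᵥ v := by
        refine res_unique hA' ht ?_
        have : A + E1 + t • (1 : Matrix (Fin n) (Fin n) ℂ) =
            (A + t • (1 : Matrix (Fin n) (Fin n) ℂ)) + E1 := by abel
        rw [this, add_mulVec, res_mul hA ht, kA, add_zero]
      have rB : res (B + E2) t *ᵥ v = res B t *ᵥ v := by
        refine res_unique hB' ht ?_
        have : B + E2 + t • (1 : Matrix (Fin n) (Fin n) ℂ) =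
            (B + t • (1 : Matrix (Fin n) (Fin n) ℂ)) + E2 := by abel
        rw [this, add_mulVec, res_mul hB ht, kB, add_zero]
      have hAB : ∀ x, ip x ((A + E1) *ᵥ x) - ip x ((B + E2) *ᵥ x) =
          ip x (cfc (fun y => y + lo δ y - up δ y) (A - B) *ᵥ x) := by
        intro x
        obtain ⟨w, -, -, w2, w3⟩ := spec hZ x
        rw [add_mulVec, add_mulVec, ip_add_right, ip_add_right, hE1, hE2, w3, w3, w3]
        have e := hZf x
        rw [← w2] at e
        have : ip x (A *ᵥ x) + ∑ j, lo δ (hZ.eigenvalues j) * w j -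
            (ip x (B *ᵥ x) + ∑ j, up δ (hZ.eigenvalues j) * w j) =
            (ip x (A *ᵥ x) - ip x (B *ᵥ x)) + ∑ j, lo δ (hZ.eigenvalues j) * w j -
            ∑ j, up δ (hZ.eigenvalues j) * w j := by ring
        rw [this, ← e, ← Finset.sum_add_distrib, ← Finset.sum_sub_distrib]
        exact Finset.sum_congr rfl fun j _ => by ring
      have hconst : ∀ x (c : ℝ), ip x (cfc (fun _ => c) (A - B) *ᵥ x) = c * ip x x := by
        intro x c
        obtain ⟨w, -, w1, -, w3⟩ := spec hZ x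
        rw [w3, ← w1, Finset.mul_sum]
      have hu : ∀ x, ip x ((A + E1) *ᵥ x) ≤ ip x ((B + E2) *ᵥ x) + δ * ip x x := by
        intro x
        have := form_le_of hZ (fun y => y + lo δ y - up δ y) (fun _ => δ) (fun y => by
          unfold lo up
          rcases le_total (y - δ) 0 with h | h
          · rw [max_eq_right h]
            rcases le_total (-y - δ) 0 with h' | h'
            · rw [max_eq_right h']; linarith
            · rw [max_eq_left h']; linarith
          · rw [max_eq_left h, max_eq_right (by linarith : -y - δ ≤ 0)]; linarith) x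
        rw [hconst, ← hAB] at this
        linarith
      have hl' : ∀ x, ip x ((B + E2) *ᵥ x) ≤ ip x ((A + E1) *ᵥ x) + δ * ip x x := by
        intro x
        have := form_le_of hZ (fun _ => -δ) (fun y => y + lo δ y - up δ y) (fun y => by
          unfold lo up
          rcases le_total (y - δ) 0 with h | h
          · rw [max_eq_right h]
            rcases le_total (-y - δ) 0 with h' | h'
            · rw [max_eq_right h']; linarith
            · rw [max_eq_left h']; linarith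
          · rw [max_eq_left h, max_eq_right (by linarith : -y - δ ≤ 0)]; linarith) x
        rw [hconst, ← hAB] at this
        linarith
      have k := pointwise0 hA' hB' hδ ht hs0 hs1 hu hl' v
      rw [rA, rB] at k
      have hC' : (s • (A + E1) + (1 - s) • (B + E2)).PosSemidef :=
        (hA'.smul hs0).add (hB'.smul hs1')
      have k2 := res_anti hC hC' ht le_rfl (fun x => by
        rw [add_mulVec, add_mulVec, smul_mulVec, smul_mulVec, smul_mulVec, smul_mulVec,
          add_mulVec, add_mulVec]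
        simp only [ip_add_right, ip_smul_right]
        have i1 := mul_nonneg hs0 (ip_psd pA x)
        have i2 := mul_nonneg hs1' (ip_psd pB x)
        nlinarith [i1, i2]) v
      rw [add_zero] at k2
      rw [one_mul, hGf, mul_assoc κ]
      refine mul_le_mul_of_nonneg_left ?_ hκ
      have k3 := mul_le_mul_of_nonneg_left k2 (by positivity : 0 ≤ t ^ 2)
      nlinarith [k, k3])
  have c2 := count_le hG (ι := Fin 0) 0 (κ * (s * (1 - s) * (δ ^ 2 / (δ + t)))) (-1) (fun v _ => by
      have g := gap (shift_herm hA.1 t) (shift_herm hB.1 t) hs0 hs1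
        (fun x => by rw [shift_form]; exact add_nonneg (ip_psd hA x) (mul_nonneg ht.le (ip_self_nonneg x)))
        (fun x => by rw [shift_form]; exact add_nonneg (ip_psd hB x) (mul_nonneg ht.le (ip_self_nonneg x)))
        (res_mul hA ht v) (res_mul hB ht v)
        (c := res (s • A + (1 - s) • B) t *ᵥ v) (by
          have hCe : s • (A + t • (1 : Matrix (Fin n) (Fin n) ℂ)) +
            (1 - s) • (B + t • (1 : Matrix (Fin n) (Fin n) ℂ)) =
            (s • A + (1 - s) • B) + t • (1 : Matrix (Fin n) (Fin n) ℂ) := by module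
          rw [hCe]
          exact res_mul hC ht v)
      rw [hGf]
      have i1 : 0 ≤ κ * (t ^ 2 * (s * ip v (res A t *ᵥ v) + (1 - s) * ip v (res B t *ᵥ v) -
        ip v (res (s • A + (1 - s) • B) t *ᵥ v))) :=
        mul_nonneg hκ (mul_nonneg (by positivity) g.1)
      have i2 : 0 ≤ κ * (s * (1 - s) * (δ ^ 2 / (δ + t))) * ip v v := by
        have := ip_self_nonneg v
        positivity
      linarith)
  rw [Fintype.card_fin] at c2
  rw [Fintype.card_subtype] at c1
  have h1 : (Finset.univ.filter (fun j => κ * (s * (1 - s) * (δ ^ 2 / (δ + t))) <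
      |hG.eigenvalues j|)) ⊆
      (Finset.univ.filter (fun j => κ * (s * (1 - s) * (δ ^ 2 / (δ + t))) < 1 * hG.eigenvalues j)) ∪
      (Finset.univ.filter (fun j => κ * (s * (1 - s) * (δ ^ 2 / (δ + t))) < -1 * hG.eigenvalues j)) := by
    intro j hj
    rw [Finset.mem_filter, lt_abs] at hj
    rw [Finset.mem_union, Finset.mem_filter, Finset.mem_filter]
    rcases hj.2 with h | h
    · left; exact ⟨Finset.mem_univ _, by linarith⟩
    · right; exact ⟨Finset.mem_univ _, by linarith⟩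
  calc _ ≤ _ := Finset.card_le_card h1
    _ ≤ _ := Finset.card_union_le _ _
    _ ≤ _ := by linarith

end Pool.Agent.J4.H52.PMI
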