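import Pool.Agent.J4.H52.PMI.Main

/-!
The power means with exponent in [1/2, 1] are monotonic with respect to the operator norm.
-/

set_option autoImplicit false

open Matrix MeasureTheory Set
open scoped ComplexOrder ENNReal

namespace Pool.Agent.J4.H52.PMI

open Pool.Agent.N95.PM

variable {n : ℕ}

lemma dg_ip (V M : Matrix (Fin n) (Fin n) ℂ) (i : Fin n) :
    dg V M i = ip (fun k => V k i) (M *ᵥ fun k => V k i) := by
  unfold dg ip
  rw [Matrix.mul_assoc, Matrix.mul_apply]
  rfl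

lemma sch_nonneg (M : Matrix (Fin n) (Fin n) ℂ) : 0 ≤ schatten ∞ M := norm_nonneg _

lemma sch_le {M : Matrix (Fin n) (Fin n) ℂ} (hM : M.IsHermitian) {c : ℝ} (hc : 0 ≤ c)
    (h : ∀ v, |ip v (M *ᵥ v)| ≤ c * ip v v) : schatten ∞ M ≤ c := by
  rw [schatten_eq_dg ∞ le_top M hM, PiLp.norm_eq_ciSup]
  rcases isEmpty_or_nonempty (Fin n) with hn | hn
  · rw [Real.iSup_of_isEmpty]
    exact hc
  · refine ciSup_le fun i => ?_
    have h1 := dg_one _ (eigU_left M hM) i
    rw [dg_ip, one_mulVec] at h1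
    have h2 := h (fun k => (hM.eigenvectorUnitary : Matrix (Fin n) (Fin n) ℂ) k i)
    rw [h1, mul_one, ← dg_ip] at h2
    exact h2

lemma le_sch {M : Matrix (Fin n) (Fin n) ℂ} (hM : M.IsHermitian) (v : Fin n → ℂ) :
    |ip v (M *ᵥ v)| ≤ schatten ∞ M * ip v v := by
  obtain ⟨w, w0, w1, w2, -⟩ := spec hM v
  rw [← w2, ← w1, Finset.mul_sum]
  refine (Finset.abs_sum_le_sum_abs _ _).trans (Finset.sum_le_sum fun j _ => ?_)
  rw [abs_mul, abs_of_nonneg (w0 j)]
  refine mul_le_mul_of_nonneg_right ?_ (w0 j)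
  rw [schatten_hermitian ∞ le_top M hM]
  have := PiLp.norm_apply_le
    (WithLp.toLp ∞ (fun i => |hM.eigenvalues i|) : PiLp ∞ (fun _ : Fin n => ℝ)) j
  simpa using this

/-- the core inequality -/
theorem core {p : ℝ} (hp1 : 1 / 2 < p) (hp2 : p < 1) {A B : Matrix (Fin n) (Fin n) ℂ}
    (hA : A.PosDef) (hB : B.PosDef) {s : ℝ} (hs0 : 0 ≤ s) (hs1 : s ≤ 1) :
    schatten ∞ (mpow (s • A + (1 - s) • B) (1 / p) - mpow B (1 / p)) ≤
      schatten ∞ (mpow A (1 / p) - mpow B (1 / p)) := by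
  have hp0 : 0 < p := by linarith
  have hs1' : 0 ≤ 1 - s := by linarith
  set r := 1 / p with hr
  have hr1 : 1 < r := by rw [hr, lt_div_iff₀ hp0]; linarith
  have hr2 : r < 2 := by rw [hr, div_lt_iff₀ hp0]; linarith
  have hrp : r * p = 1 := by rw [hr]; field_simp
  have hX := mpow_posSemidef A hA r
  have hY := mpow_posSemidef B hB r
  have hXY : (mpow A r - mpow B r).IsHermitian := hX.1.sub hY.1
  set M0 := schatten ∞ (mpow A r - mpow B r) with hM0
  have hM : 0 ≤ M0 := sch_nonneg _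
  have hXp : mpow (mpow A r) p = A := by rw [mpow_mpow A hA, hrp, mpow_one A hA]
  have hYp : mpow (mpow B r) p = B := by rw [mpow_mpow B hB, hrp, mpow_one B hB]
  have hb : ∀ x, |ip x (mpow A r *ᵥ x) - ip x (mpow B r *ᵥ x)| ≤ M0 * ip x x := by
    intro x
    have := le_sch hXY x
    rwa [sub_mulVec, ip_sub_right] at this
  refine le_of_forall_pos_le_add fun ε hε => ?_
  have hm : 0 < M0 + ε := by linarith
  have hd : 0 < (M0 + ε) ^ p := Real.rpow_pos_of_pos hm p
  have hdr : ((M0 + ε) ^ p) ^ r = M0 + ε := by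
    rw [← Real.rpow_mul hm.le, mul_comm, hrp, Real.rpow_one]
  have hnn := fun x : Fin n → ℂ => ip_self_nonneg x
  have h1 : ∀ x, ip x (A *ᵥ x) ≤ ip x (B *ᵥ x) + (M0 + ε) ^ p * ip x x := by
    intro x
    have := powmono ⟨hp0, hp2⟩ hX hY hm.le (fun y => by
      have i1 := (abs_le.1 (hb y)).2
      have i2 := mul_nonneg hε.le (hnn y)
      linarith) x
    rwa [hXp, hYp] at this
  have h2 : ∀ x, ip x (B *ᵥ x) ≤ ip x (A *ᵥ x) + (M0 + ε) ^ p * ip x x := by
    intro x
    have := powmono ⟨hp0, hp2⟩ hY hX hm.le (fun y => by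
      have i1 := (abs_le.1 (hb y)).1
      have i2 := mul_nonneg hε.le (hnn y)
      linarith) x
    rwa [hXp, hYp] at this
  have hCp : (s • A + (1 - s) • B).PosSemidef :=
    (hA.posSemidef.smul hs0).add (hB.posSemidef.smul hs1')
  have hH : (mpow (s • A + (1 - s) • B) r - mpow B r).IsHermitian :=
    (mpow_isHermitian _ r).sub hY.1
  refine sch_le hH hm.le fun v => ?_
  have g := powgap ⟨hr1, hr2⟩ hA.posSemidef hB.posSemidef hd hs0 hs1 h1 h2 v
  rw [hdr] at g
  have hv := hb v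
  rw [sub_mulVec, ip_sub_right]
  have hv0 := hnn v
  set α := ip v (mpow A r *ᵥ v)
  set β := ip v (mpow B r *ᵥ v)
  set γ := ip v (mpow (s • A + (1 - s) • B) r *ᵥ v)
  set ν := ip v v
  rw [abs_le] at hv ⊢
  have u1 := mul_le_mul_of_nonneg_left hv.2 hs0
  have u2 := mul_le_mul_of_nonneg_left hv.1 hs0
  have u3 : 0 ≤ M0 * ν := mul_nonneg hM hv0
  have u4 : 0 ≤ ε * ν := mul_nonneg hε.le hv0
  have u5 : 0 ≤ (1 - s) ^ 2 * ((M0 + ε) * ν) := by positivity
  have u6 : 0 ≤ s * (ε * ν) := mul_nonneg hs0 u4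
  have u7 : 0 ≤ (1 - s) * (M0 * ν) := mul_nonneg hs1' u3
  constructor
  · nlinarith [g.2]
  · nlinarith [g.1]

/-- the exponents in (1/2, 1) -/
theorem mono_mid {p : ℝ} (hp1 : 1 / 2 < p) (hp2 : p < 1) : PowerMeanMonotonic p ∞ := by
  intro n X Y hX hY s hs t ht hst
  simp only
  have hp0 : 0 < p := by linarith
  have hAd : (mpow X p).PosDef := by
    refine (mpow_posSemidef X hX p).posDef_iff_isUnit.2 ?_
    have : mpow X p * mpow X (-p) = 1 := by
      rw [← mpow_add X hX, add_neg_cancel]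
      unfold mpow
      simp only [Real.rpow_zero]
      exact cfc_const_one ℝ X hX.1.isSelfAdjoint
    exact IsUnit.of_mul_eq_one _ this
  have hBd : (mpow Y p).PosDef := by
    refine (mpow_posSemidef Y hY p).posDef_iff_isUnit.2 ?_
    have : mpow Y p * mpow Y (-p) = 1 := by
      rw [← mpow_add Y hY, add_neg_cancel]
      unfold mpow
      simp only [Real.rpow_zero]
      exact cfc_const_one ℝ Y hY.1.isSelfAdjoint
    exact IsUnit.of_mul_eq_one _ this
  have hYY : mpow (mpow Y p) (1 / p) = Y := by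
    rw [mpow_mpow Y hY, mul_one_div_cancel hp0.ne', mpow_one Y hY]
  rcases eq_or_lt_of_le ht.1 with h0 | h0
  · have hs0 : s = t := le_antisymm hst (by rw [← h0]; exact hs.1)
    rw [hs0]
  · unfold powerMean
    generalize mpow X p = A at *
    generalize mpow Y p = B at *
    rw [← hYY]
    have hT : (t • A + (1 - t) • B).PosDef := by
      rcases eq_or_lt_of_le ht.2 with h1 | h1
      · rw [h1]; simpa using hAd
      · exact (hAd.smul h0).add (hBd.smul (by linarith))
    have hcore := core hp1 hp2 hT hBd (div_nonneg hs.1 h0.le) ((div_le_one h0).2 hst)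
    have e : (s / t) • (t • A + (1 - t) • B) + (1 - s / t) • B = s • A + (1 - s) • B := by
      rw [smul_add, smul_smul, smul_smul, add_assoc, ← add_smul]
      congr 2
      · field_simp
      · field_simp
        ring
    rw [e] at hcore
    exact hcore

/-- the exponent 1 -/
theorem mono_one (q : ℝ≥0∞) (hq : 1 ≤ q) : PowerMeanMonotonic 1 q := by
  intro n X Y hX hY s hs t ht hst
  simp only
  have : Fact (1 ≤ q) := ⟨hq⟩
  have hpm : ∀ u ∈ Set.Icc (0 : ℝ) 1, powerMean 1 u X Y - Y = u • (X - Y) := by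
    intro u hu
    unfold powerMean
    rw [mpow_one X hX, mpow_one Y hY, div_one]
    have hp : (u • X + (1 - u) • Y).PosDef := by
      rcases eq_or_lt_of_le hu.1 with h1 | h1
      · rw [← h1]; simpa using hY
      · rcases eq_or_lt_of_le hu.2 with h2 | h2
        · rw [h2]; simpa using hX
        · exact (hX.smul h1).add (hY.smul (by linarith))
    rw [mpow_one _ hp]
    module
  rw [hpm s hs, hpm t ht]
  have hH : (X - Y).IsHermitian := hX.1.sub hY.1
  rcases eq_or_lt_of_le ht.1 with h0 | h0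
  · have hs0 : s = t := le_antisymm hst (by rw [← h0]; exact hs.1)
    rw [hs0]
  · have e : s • (X - Y) = (s / t) • (t • (X - Y)) := by
      rw [smul_smul, div_mul_cancel₀ _ h0.ne']
    rw [e]
    refine (schatten_smul q hq _ (smul_herm t hH) (s / t) (div_nonneg hs.1 h0.le)).trans ?_
    exact mul_le_of_le_one_left (norm_nonneg _) ((div_le_one h0).2 hst)

theorem main : ∀ p : ℝ, 1 / 2 ≤ p → p ≤ 1 → PowerMeanMonotonic p ∞ := by
  intro p h1 h2
  rcases eq_or_lt_of_le h1 with h | h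
  · rw [← h]; exact half_monotonic ∞ le_top
  · rcases eq_or_lt_of_le h2 with h' | h'
    · rw [h']; exact mono_one ∞ le_top
    · exact mono_mid h h'

end Pool.Agent.J4.H52.PMI
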