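import Pool.Agent.J4.H52.PMI.Spec
import Pool.Agent.N95.PM.Two

/-!
The power means with exponent in [1/2, 1] are monotonic with respect to the operator norm.
-/

set_option autoImplicit false

open Matrix MeasureTheory Set
open scoped ComplexOrder ENNReal

namespace Pool.Agent.J4.H52.PMI

open Pool.Agent.N95.PM

variable {n : ℕ}

/-- the constant of the integral representation -/
noncomputable def kc (r : ℝ) : ℝ := (∫ t in Ioi 0, Real.rpowIntegrand₀₁ r t 1)⁻¹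

lemma kc_nonneg {r : ℝ} (hr : r ∈ Ioo (0 : ℝ) 1) : 0 ≤ kc r :=
  inv_nonneg.2 (Real.integral_rpowIntegrand₀₁_one_pos hr).le

lemma int12 {r : ℝ} (hr : r ∈ Ioo (1 : ℝ) 2) (w x : Fin n → ℝ) (hx : ∀ j, 0 ≤ x j) :
    IntegrableOn (fun t => ∑ j, Real.rpowIntegrand₁₂ r t (x j) * w j) (Ioi 0) ∧
    ∑ j, x j ^ r * w j =
      kc (r - 1) * ∫ t in Ioi 0, ∑ j, Real.rpowIntegrand₁₂ r t (x j) * w j := by
  have hi : ∀ j, IntegrableOn (fun t => Real.rpowIntegrand₁₂ r t (x j) * w j) (Ioi 0) :=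
    fun j => (Real.integrableOn_rpowIntegrand₁₂ hr (hx j)).mul_const _
  refine ⟨integrable_finsetSum _ fun j _ => hi j, ?_⟩
  rw [integral_finsetSum _ fun j _ => hi j, Finset.mul_sum]
  refine Finset.sum_congr rfl fun j _ => ?_
  rw [integral_mul_const, Real.rpow_eq_const_mul_integral_rpowIntegrand₁₂ hr (hx j), mul_assoc]
  rfl

lemma int01 {r : ℝ} (hr : r ∈ Ioo (0 : ℝ) 1) (w x : Fin n → ℝ) (hx : ∀ j, 0 ≤ x j) :
    IntegrableOn (fun t => ∑ j, Real.rpowIntegrand₀₁ r t (x j) * w j) (Ioi 0) ∧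
    ∑ j, x j ^ r * w j =
      kc r * ∫ t in Ioi 0, ∑ j, Real.rpowIntegrand₀₁ r t (x j) * w j := by
  have hi : ∀ j, IntegrableOn (fun t => Real.rpowIntegrand₀₁ r t (x j) * w j) (Ioi 0) :=
    fun j => (Real.integrableOn_rpowIntegrand₀₁_Ioi hr (hx j)).mul_const _
  refine ⟨integrable_finsetSum _ fun j _ => hi j, ?_⟩
  rw [integral_finsetSum _ fun j _ => hi j, Finset.mul_sum]
  refine Finset.sum_congr rfl fun j _ => ?_
  rw [integral_mul_const, Real.rpow_eq_const_mul_integral hr (hx j), mul_assoc]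
  rfl

lemma int_comb {FA FB FC : ℝ → ℝ} (hA : IntegrableOn FA (Ioi 0)) (hB : IntegrableOn FB (Ioi 0))
    (hC : IntegrableOn FC (Ioi 0)) (s k : ℝ) :
    s * (k * ∫ t in Ioi 0, FA t) + (1 - s) * (k * ∫ t in Ioi 0, FB t) - k * ∫ t in Ioi 0, FC t =
      k * ∫ t in Ioi 0, (s * FA t + (1 - s) * FB t - FC t) := by
  have hAB : IntegrableOn (fun t => s * FA t + (1 - s) * FB t) (Ioi 0) :=
    (hA.const_mul s).add (hB.const_mul (1 - s))
  have e1 : ∫ t in Ioi 0, (s * FA t + (1 - s) * FB t - FC t) =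
      (∫ t in Ioi 0, (s * FA t + (1 - s) * FB t)) - ∫ t in Ioi 0, FC t :=
    integral_sub hAB hC
  have e2 : ∫ t in Ioi 0, (s * FA t + (1 - s) * FB t) =
      (∫ t in Ioi 0, s * FA t) + ∫ t in Ioi 0, (1 - s) * FB t :=
    integral_add (hA.const_mul s) (hB.const_mul (1 - s))
  rw [e1, e2, integral_const_mul, integral_const_mul]
  ring

/-- the integrand of the exponents in (1, 2) in terms of the resolvent -/
lemma sum12 {M : Matrix (Fin n) (Fin n) ℂ} (hM : M.IsHermitian) {v : Fin n → ℂ} {w : Fin n → ℝ}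
    (h1 : ∑ j, w j = ip v v) (h2 : ∑ j, hM.eigenvalues j * w j = ip v (M *ᵥ v))
    (h3 : ∀ f : ℝ → ℝ, ip v (cfc f M *ᵥ v) = ∑ j, f (hM.eigenvalues j) * w j) (r t : ℝ) :
    ∑ j, Real.rpowIntegrand₁₂ r t (hM.eigenvalues j) * w j =
      t ^ (r - 1) * (t⁻¹ * ip v (M *ᵥ v) + t * ip v (res M t *ᵥ v) - ip v v) := by
  rw [← h1, ← h2, res, h3, Finset.mul_sum, Finset.mul_sum, ← Finset.sum_add_distrib,
    ← Finset.sum_sub_distrib, Finset.mul_sum]
  refine Finset.sum_congr rfl fun j _ => ?_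
  unfold Real.rpowIntegrand₁₂
  ring

/-- the gap of convexity of a power -/
lemma powgap {r : ℝ} (hr : r ∈ Ioo (1 : ℝ) 2) {A B : Matrix (Fin n) (Fin n) ℂ}
    (hA : A.PosSemidef) (hB : B.PosSemidef) {d s : ℝ} (hd : 0 < d) (hs0 : 0 ≤ s) (hs1 : s ≤ 1)
    (h1 : ∀ x, ip x (A *ᵥ x) ≤ ip x (B *ᵥ x) + d * ip x x)
    (h2 : ∀ x, ip x (B *ᵥ x) ≤ ip x (A *ᵥ x) + d * ip x x) (v : Fin n → ℂ) :
    0 ≤ s * ip v (mpow A r *ᵥ v) + (1 - s) * ip v (mpow B r *ᵥ v) -
      ip v (mpow (s • A + (1 - s) • B) r *ᵥ v) ∧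
    s * ip v (mpow A r *ᵥ v) + (1 - s) * ip v (mpow B r *ᵥ v) -
      ip v (mpow (s • A + (1 - s) • B) r *ᵥ v) ≤ s * (1 - s) * (d ^ r * ip v v) := by
  have hs1' : 0 ≤ 1 - s := by linarith
  have hC : (s • A + (1 - s) • B).PosSemidef := (hA.smul hs0).add (hB.smul hs1')
  obtain ⟨wA, -, a1, a2, a3⟩ := spec hA.1 v
  obtain ⟨wB, -, b1, b2, b3⟩ := spec hB.1 v
  obtain ⟨wC, -, c1, c2, c3⟩ := spec hC.1 v
  have IA := int12 hr wA hA.1.eigenvalues hA.eigenvalues_nonneg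
  have IB := int12 hr wB hB.1.eigenvalues hB.eigenvalues_nonneg
  have IC := int12 hr wC hC.1.eigenvalues hC.eigenvalues_nonneg
  have ID := Real.integrableOn_rpowIntegrand₁₂ hr hd.le
  have ED := Real.rpow_eq_const_mul_integral_rpowIntegrand₁₂ hr hd.le
  have e : s * ip v (mpow A r *ᵥ v) + (1 - s) * ip v (mpow B r *ᵥ v) -
      ip v (mpow (s • A + (1 - s) • B) r *ᵥ v) = kc (r - 1) * ∫ t in Ioi 0,
        (s * (∑ j, Real.rpowIntegrand₁₂ r t (hA.1.eigenvalues j) * wA j) +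
          (1 - s) * (∑ j, Real.rpowIntegrand₁₂ r t (hB.1.eigenvalues j) * wB j) -
          ∑ j, Real.rpowIntegrand₁₂ r t (hC.1.eigenvalues j) * wC j) := by
    unfold mpow
    rw [a3, b3, c3, IA.2, IB.2, IC.2]
    exact int_comb IA.1 IB.1 IC.1 s (kc (r - 1))
  have hcomb : ∀ t : ℝ, 0 < t → s * (∑ j, Real.rpowIntegrand₁₂ r t (hA.1.eigenvalues j) * wA j) +
      (1 - s) * (∑ j, Real.rpowIntegrand₁₂ r t (hB.1.eigenvalues j) * wB j) -
      ∑ j, Real.rpowIntegrand₁₂ r t (hC.1.eigenvalues j) * wC j =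
      t ^ (r - 1) * (t⁻¹ * (t ^ 2 * (s * ip v (res A t *ᵥ v) + (1 - s) * ip v (res B t *ᵥ v) -
        ip v (res (s • A + (1 - s) • B) t *ᵥ v)))) := by
    intro t ht
    rw [sum12 hA.1 a1 a2 a3, sum12 hB.1 b1 b2 b3, sum12 hC.1 c1 c2 c3]
    have : ip v ((s • A + (1 - s) • B) *ᵥ v) = s * ip v (A *ᵥ v) + (1 - s) * ip v (B *ᵥ v) := by
      rw [add_mulVec, smul_mulVec, smul_mulVec, ip_add_right, ip_smul_right, ip_smul_right]
    rw [this]
    field_simp
    ring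
  have k0 : 0 ≤ kc (r - 1) := kc_nonneg ⟨by linarith [hr.1], by linarith [hr.2]⟩
  rw [e]
  constructor
  · refine mul_nonneg k0 (setIntegral_nonneg measurableSet_Ioi fun t ht => ?_)
    rw [hcomb t ht]
    have ht' : 0 < t := ht
    have := (pointwise hA hB hd ht' hs0 hs1 h1 h2 v).1
    positivity
  · have hle : ∫ t in Ioi 0,
        (s * (∑ j, Real.rpowIntegrand₁₂ r t (hA.1.eigenvalues j) * wA j) +
          (1 - s) * (∑ j, Real.rpowIntegrand₁₂ r t (hB.1.eigenvalues j) * wB j) -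
          ∑ j, Real.rpowIntegrand₁₂ r t (hC.1.eigenvalues j) * wC j) ≤
        ∫ t in Ioi 0, s * (1 - s) * ip v v * Real.rpowIntegrand₁₂ r t d := by
      refine setIntegral_mono_on (((IA.1.const_mul s).add (IB.1.const_mul (1 - s))).sub IC.1)
        (ID.const_mul _) measurableSet_Ioi fun t ht => ?_
      rw [hcomb t ht]
      have ht' : 0 < t := ht
      have h := (pointwise hA hB hd ht' hs0 hs1 h1 h2 v).2
      have hp : 0 < t ^ (r - 1) := Real.rpow_pos_of_pos ht' _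
      have e2 : s * (1 - s) * ip v v * Real.rpowIntegrand₁₂ r t d =
          t ^ (r - 1) * (t⁻¹ * (s * (1 - s) * (d ^ 2 / (d + t) * ip v v))) := by
        unfold Real.rpowIntegrand₁₂
        have : d + t ≠ 0 := by positivity
        have : t + d ≠ 0 := by positivity
        rw [add_comm d t]
        field_simp
        ring
      rw [e2]
      have : t⁻¹ * (t ^ 2 * (s * ip v (res A t *ᵥ v) + (1 - s) * ip v (res B t *ᵥ v) -
        ip v (res (s • A + (1 - s) • B) t *ᵥ v))) ≤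
        t⁻¹ * (s * (1 - s) * (d ^ 2 / (d + t) * ip v v)) :=
        mul_le_mul_of_nonneg_left h (by positivity)
      exact mul_le_mul_of_nonneg_left this hp.le
    refine (mul_le_mul_of_nonneg_left hle k0).trans_eq ?_
    rw [integral_const_mul, ED]
    unfold kc
    ring

/-- operator monotonicity and subadditivity of a power with exponent in (0, 1) -/
lemma powmono {p : ℝ} (hp : p ∈ Ioo (0 : ℝ) 1) {X Y : Matrix (Fin n) (Fin n) ℂ}
    (hX : X.PosSemidef) (hY : Y.PosSemidef) {m : ℝ} (hm : 0 ≤ m)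
    (h : ∀ x, ip x (X *ᵥ x) ≤ ip x (Y *ᵥ x) + m * ip x x) (v : Fin n → ℂ) :
    ip v (mpow X p *ᵥ v) ≤ ip v (mpow Y p *ᵥ v) + m ^ p * ip v v := by
  obtain ⟨wX, -, a1, -, a3⟩ := spec hX.1 v
  obtain ⟨wY, w0, b1, -, b3⟩ := spec hY.1 v
  have IX := int01 hp wX hX.1.eigenvalues hX.eigenvalues_nonneg
  have IY := int01 hp wY (fun j => hY.1.eigenvalues j + m)
    (fun j => add_nonneg (hY.eigenvalues_nonneg j) hm)
  have k0 : 0 ≤ kc p := kc_nonneg hp
  have h1 : ip v (mpow X p *ᵥ v) ≤ ∑ j, (hY.1.eigenvalues j + m) ^ p * wY j := by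
    unfold mpow
    rw [a3, IX.2, IY.2]
    refine mul_le_mul_of_nonneg_left (setIntegral_mono_on IX.1 IY.1 measurableSet_Ioi
      fun t ht => ?_) k0
    have ht' : 0 < t := ht
    have r1 : ∑ j, Real.rpowIntegrand₀₁ p t (hX.1.eigenvalues j) * wX j =
        t ^ p * (t⁻¹ * ip v v - ip v (res X t *ᵥ v)) := by
      rw [← a1, res, a3, Finset.mul_sum, ← Finset.sum_sub_distrib, Finset.mul_sum]
      refine Finset.sum_congr rfl fun j _ => ?_
      unfold Real.rpowIntegrand₀₁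
      ring
    have r2 : ∑ j, Real.rpowIntegrand₀₁ p t (hY.1.eigenvalues j + m) * wY j =
        t ^ p * (t⁻¹ * ip v v - ip v (res Y (t + m) *ᵥ v)) := by
      rw [← b1, res, b3, Finset.mul_sum, ← Finset.sum_sub_distrib, Finset.mul_sum]
      refine Finset.sum_congr rfl fun j _ => ?_
      unfold Real.rpowIntegrand₀₁
      rw [show t + (hY.1.eigenvalues j + m) = t + m + hY.1.eigenvalues j by ring]
      ring
    rw [r1, r2]
    refine mul_le_mul_of_nonneg_left ?_ (Real.rpow_nonneg ht'.le _)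
    linarith [res_anti hX hY ht' hm h v]
  refine h1.trans ?_
  unfold mpow
  rw [b3, ← b1, Finset.mul_sum, ← Finset.sum_add_distrib]
  refine Finset.sum_le_sum fun j _ => ?_
  rw [← add_mul]
  exact mul_le_mul_of_nonneg_right
    (Real.rpow_add_le_add_rpow (hY.eigenvalues_nonneg j) hm hp.1.le hp.2.le) (w0 j)

end Pool.Agent.J4.H52.PMI
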