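import Pool.Agent.J4.H52.PMI.Final

/-!
Majorization of integrals of matrices.
-/

set_option autoImplicit false

open Matrix MeasureTheory Set
open scoped ComplexOrder ENNReal

namespace Pool.Agent.J4.H52.PMI

open Pool.Agent.N95.PM

variable {n : ℕ}

lemma specE {M : Matrix (Fin n) (Fin n) ℂ} (hM : M.IsHermitian) (v : Fin n → ℂ) :
    ip v v = ∑ j, Complex.normSq (((hM.eigenvectorUnitary : Matrix (Fin n) (Fin n) ℂ)ᴴ *ᵥ v) j) ∧
    ip v (M *ᵥ v) = ∑ j, hM.eigenvalues j *
      Complex.normSq (((hM.eigenvectorUnitary : Matrix (Fin n) (Fin n) ℂ)ᴴ *ᵥ v) j) := by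
  have hU2 := eigU_right M hM
  have hsp := spectral' M hM
  generalize (hM.eigenvectorUnitary : Matrix (Fin n) (Fin n) ℂ) = U at *
  generalize hM.eigenvalues = l at *
  have e : star v ᵥ* U = star (Uᴴ *ᵥ v) := by
    rw [star_mulVec, conjTranspose_conjTranspose]
  constructor
  · have h1 : ip v v = ip v ((U * Uᴴ) *ᵥ v) := by rw [hU2, one_mulVec]
    rw [h1]
    unfold ip
    rw [← mulVec_mulVec, dotProduct_mulVec, e, dotProduct, Complex.re_sum]
    refine Finset.sum_congr rfl fun j _ => ?_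
    rw [Pi.star_apply, RCLike.star_def, ← Complex.normSq_eq_conj_mul_self, Complex.ofReal_re]
  · rw [hsp]
    unfold ip
    rw [← mulVec_mulVec, ← mulVec_mulVec, dotProduct_mulVec, e, dotProduct, Complex.re_sum]
    refine Finset.sum_congr rfl fun j _ => ?_
    rw [mulVec_diagonal, Pi.star_apply, RCLike.star_def, mul_left_comm,
      ← Complex.normSq_eq_conj_mul_self, ← Complex.ofReal_mul, Complex.ofReal_re]

/-- counting eigenvalues by linear constraints -/
lemma count_le {G : Matrix (Fin n) (Fin n) ℂ} (hG : G.IsHermitian) {ι : Type} [Fintype ι]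
    (L : (Fin n → ℂ) →ₗ[ℂ] (ι → ℂ)) (c e : ℝ)
    (h : ∀ v, L v = 0 → e * ip v (G *ᵥ v) ≤ c * ip v v) :
    (Finset.univ.filter (fun j => c < e * hG.eigenvalues j)).card ≤ Fintype.card ι := by
  classical
  by_contra hlt
  rw [not_le] at hlt
  set U : Matrix (Fin n) (Fin n) ℂ := (hG.eigenvectorUnitary : Matrix (Fin n) (Fin n) ℂ) with hU
  let S := {j // c < e * hG.eigenvalues j}
  let E : (S → ℂ) →ₗ[ℂ] (Fin n → ℂ) :=
    { toFun := fun x => U *ᵥ (fun j => if hj : c < e * hG.eigenvalues j then x ⟨j, hj⟩ else 0)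
      map_add' := by
        intro x y
        rw [← mulVec_add]
        congr 1
        funext j
        simp only [Pi.add_apply]
        split_ifs <;> simp
      map_smul' := by
        intro a x
        rw [RingHom.id_apply, ← mulVec_smul]
        congr 1
        funext j
        simp only [Pi.smul_apply]
        split_ifs <;> simp }
  have hcard : Fintype.card S = (Finset.univ.filter (fun j => c < e * hG.eigenvalues j)).card :=
    Fintype.card_subtype _
  have hk : LinearMap.ker (L ∘ₗ E) ≠ ⊥ := by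
    apply LinearMap.ker_ne_bot_of_finrank_lt
    rw [Module.finrank_fintype_fun_eq_card, Module.finrank_fintype_fun_eq_card, hcard]
    exact hlt
  obtain ⟨x, hx, hx0⟩ := Submodule.exists_mem_ne_zero_of_ne_bot hk
  have hLx : L (E x) = 0 := hx
  have h1 := h (E x) hLx
  have hUx : Uᴴ *ᵥ (E x) = fun j => if hj : c < e * hG.eigenvalues j then x ⟨j, hj⟩ else 0 := by
    show Uᴴ *ᵥ (U *ᵥ _) = _
    rw [mulVec_mulVec, eigU_left G hG, one_mulVec]
  have s1 := specE hG (E x)
  rw [← hU, hUx] at s1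
  rw [s1.1, s1.2, Finset.mul_sum, Finset.mul_sum] at h1
  obtain ⟨j0, hj0⟩ := Function.ne_iff.1 hx0
  have h2 : ∑ j, c * Complex.normSq (if hj : c < e * hG.eigenvalues j then x ⟨j, hj⟩ else 0) <
      ∑ j, e * (hG.eigenvalues j * Complex.normSq (if hj : c < e * hG.eigenvalues j then x ⟨j, hj⟩ else 0)) := by
    refine Finset.sum_lt_sum (fun j _ => ?_) ⟨j0.1, Finset.mem_univ _, ?_⟩
    · rw [← mul_assoc]
      split_ifs with hj
      · exact mul_le_mul_of_nonneg_right hj.le (Complex.normSq_nonneg _)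
      · simp
    · rw [dif_pos j0.2, ← mul_assoc]
      refine mul_lt_mul_of_pos_right j0.2 ?_
      rw [Complex.normSq_pos]
      exact hj0
  exact absurd h1 (not_le.2 h2)

/-- sorting -/
lemma sort_dom (b z : Fin n → ℝ) (φ : ℝ → ℝ)
    (h : ∀ i, (Finset.univ.filter (fun j => φ (z i) < b j)).card ≤
      (Finset.univ.filter (fun j => z i < z j)).card) (k : Fin n) :
    b (Tuple.sort b k) ≤ φ (z (Tuple.sort z k)) := by
  by_contra hc
  rw [not_le] at hc
  have hb := Tuple.monotone_sort b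
  have hz := Tuple.monotone_sort z
  have h1 : ((Finset.Ici k).map (Tuple.sort b).toEmbedding).card ≤
      (Finset.univ.filter (fun j => φ (z (Tuple.sort z k)) < b j)).card := by
    apply Finset.card_le_card
    intro j hj
    rw [Finset.mem_map] at hj
    obtain ⟨l, hl, rfl⟩ := hj
    rw [Finset.mem_filter]
    refine ⟨Finset.mem_univ _, hc.trans_le ?_⟩
    exact hb (Finset.mem_Ici.1 hl)
  have h2 : (Finset.univ.filter (fun j => z (Tuple.sort z k) < z j)).card ≤
      ((Finset.Ioi k).map (Tuple.sort z).toEmbedding).card := by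
    apply Finset.card_le_card
    intro j hj
    rw [Finset.mem_filter] at hj
    rw [Finset.mem_map]
    refine ⟨(Tuple.sort z).symm j, ?_, by simp⟩
    rw [Finset.mem_Ioi]
    by_contra hle
    rw [not_lt] at hle
    have := hz hle
    simp only [Function.comp_apply, Equiv.apply_symm_apply] at this
    exact absurd hj.2 (not_lt.2 this)
  have h3 := h (Tuple.sort z k)
  rw [Finset.card_map, Fin.card_Ici] at h1
  rw [Finset.card_map, Fin.card_Ioi] at h2
  have := k.2
  omega

/-- rearrangement for doubly stochastic matrices -/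
lemma hl {a f : Fin n → ℝ} (ha : Monotone a) (hf : Monotone f) (P : Fin n → Fin n → ℝ)
    (h0 : ∀ i j, 0 ≤ P i j) (h1 : ∀ i, ∑ j, P i j = 1) (h2 : ∀ j, ∑ i, P i j = 1) :
    ∑ i, ∑ j, a i * f j * P i j ≤ ∑ i, a i * f i := by
  have hmem : (Matrix.of P) ∈ doublyStochastic ℝ (Fin n) := by
    rw [mem_doublyStochastic_iff_sum]
    exact ⟨fun i j => h0 i j, fun i => h1 i, fun j => h2 j⟩
  obtain ⟨w, hw0, hw1, hw⟩ := exists_eq_sum_perm_of_mem_doublyStochastic hmem
  have hP : ∀ i j, P i j = ∑ σ : Equiv.Perm (Fin n), w σ * (if σ i = j then 1 else 0) := by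
    intro i j
    have := congrFun (congrFun hw i) j
    rw [Matrix.sum_apply] at this
    rw [show P i j = Matrix.of P i j from rfl, ← this]
    refine Finset.sum_congr rfl fun σ _ => ?_
    rw [Matrix.smul_apply, smul_eq_mul]
    congr 1
    simp [Equiv.Perm.permMatrix, PEquiv.toMatrix_apply, Equiv.toPEquiv_apply, eq_comm]
  have key : ∀ i, ∑ j, a i * f j * P i j =
      ∑ σ : Equiv.Perm (Fin n), w σ * (a i * f (σ i)) := by
    intro i
    simp only [hP, Finset.mul_sum]
    rw [Finset.sum_comm]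
    refine Finset.sum_congr rfl fun σ _ => ?_
    rw [Finset.sum_eq_single (σ i)]
    · simp only [if_true]; ring
    · intro j _ hj
      rw [if_neg (Ne.symm hj)]; ring
    · intro h; exact absurd (Finset.mem_univ _) h
  calc ∑ i, ∑ j, a i * f j * P i j
      = ∑ σ : Equiv.Perm (Fin n), w σ * ∑ i, a i * f (σ i) := by
        rw [Finset.sum_congr rfl fun i _ => key i, Finset.sum_comm]
        refine Finset.sum_congr rfl fun σ _ => by rw [Finset.mul_sum]
    _ ≤ ∑ σ : Equiv.Perm (Fin n), w σ * ∑ i, a i * f i := by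
        refine Finset.sum_le_sum fun σ _ => mul_le_mul_of_nonneg_left ?_ (hw0 σ)
        exact (ha.monovary hf).sum_mul_comp_perm_le_sum_mul
    _ = ∑ i, a i * f i := by rw [← Finset.sum_mul, hw1, one_mul]

/-- one matrix -/
lemma per_t {G : Matrix (Fin n) (Fin n) ℂ} (hG : G.IsHermitian) {V : Matrix (Fin n) (Fin n) ℂ}
    (hV : Vᴴ * V = 1) (y z : Fin n → ℝ) (φ : ℝ → ℝ) (hφ : MonotoneOn φ (Ici 0))
    (hz : ∀ i, 0 ≤ z i)
    (h : ∀ i, (Finset.univ.filter (fun j => φ (z i) < |hG.eigenvalues j|)).card ≤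
      (Finset.univ.filter (fun j => z i < z j)).card) :
    ∑ i, y i * dg V G i ≤
      ∑ k, |y (Tuple.sort (fun i => |y i|) k)| * φ (z (Tuple.sort z k)) := by
  obtain ⟨P, p0, p1, p2, p3, -⟩ := dg_cfc G hG V hV
  set b := fun j => |hG.eigenvalues j| with hb
  set a := fun i => |y i| with ha
  have hdom := sort_dom b z φ h
  calc ∑ i, y i * dg V G i ≤ ∑ i, ∑ j, a i * b j * P i j := by
        refine Finset.sum_le_sum fun i _ => ?_
        rw [p3, Finset.mul_sum]
        refine Finset.sum_le_sum fun j _ => ?_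
        calc y i * (hG.eigenvalues j * P i j) = (y i * hG.eigenvalues j) * P i j := by ring
          _ ≤ |y i * hG.eigenvalues j| * P i j :=
            mul_le_mul_of_nonneg_right (le_abs_self _) (p0 i j)
          _ = a i * b j * P i j := by rw [abs_mul]
    _ = ∑ k, ∑ l, a (Tuple.sort a k) * b (Tuple.sort b l) * P (Tuple.sort a k) (Tuple.sort b l) := by
        rw [← Equiv.sum_comp (Tuple.sort a)]
        refine Finset.sum_congr rfl fun k _ => ?_
        rw [← Equiv.sum_comp (Tuple.sort b)]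
    _ ≤ ∑ k, ∑ l, (a ∘ Tuple.sort a) k * (fun l => φ (z (Tuple.sort z l))) l *
          P (Tuple.sort a k) (Tuple.sort b l) := by
        refine Finset.sum_le_sum fun k _ => Finset.sum_le_sum fun l _ => ?_
        refine mul_le_mul_of_nonneg_right ?_ (p0 _ _)
        exact mul_le_mul_of_nonneg_left (hdom l) (abs_nonneg _)
    _ ≤ ∑ k, (a ∘ Tuple.sort a) k * (fun l => φ (z (Tuple.sort z l))) k := by
        refine hl (Tuple.monotone_sort a) ?_ (fun k l => P (Tuple.sort a k) (Tuple.sort b l))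
          (fun _ _ => p0 _ _) (fun k => ?_) (fun l => ?_)
        · intro k l hkl
          exact hφ (hz _) (hz _) (Tuple.monotone_sort z hkl)
        · rw [Equiv.sum_comp (Tuple.sort b) (fun j => P (Tuple.sort a k) j)]
          exact p1 _
        · rw [Equiv.sum_comp (Tuple.sort a) (fun i => P i (Tuple.sort b l))]
          exact p2 _
    _ = _ := rfl

lemma young {a b Q : ℝ} (ha : 0 ≤ a) (hb : 0 ≤ b) (hQ : 1 ≤ Q) :
    a ^ (Q - 1) * b ≤ (1 - 1 / Q) * a ^ Q + 1 / Q * b ^ Q := by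
  have hQ0 : 0 < Q := by linarith
  have h1 : 1 / Q ≤ 1 := by rw [div_le_one hQ0]; exact hQ
  have h := Real.geom_mean_le_arith_mean2_weighted (w₁ := 1 - 1 / Q) (w₂ := 1 / Q)
    (p₁ := a ^ Q) (p₂ := b ^ Q) (by linarith) (by positivity) (Real.rpow_nonneg ha _)
    (Real.rpow_nonneg hb _) (by ring)
  rw [← Real.rpow_mul ha, ← Real.rpow_mul hb] at h
  have e1 : Q * (1 - 1 / Q) = Q - 1 := by field_simp
  have e2 : Q * (1 / Q) = 1 := by field_simp
  rw [e1, e2, Real.rpow_one] at h
  exact h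

/-- **majorization of an integral** -/
theorem maj {M : Matrix (Fin n) (Fin n) ℂ} (hM : M.IsHermitian)
    {G : ℝ → Matrix (Fin n) (Fin n) ℂ} (hG : ∀ t, (G t).IsHermitian) {k : ℝ} (hk : 0 ≤ k)
    (hint : ∀ v, IntegrableOn (fun t => ip v (G t *ᵥ v)) (Ioi 0))
    (hrep : ∀ v, ip v (M *ᵥ v) = k * ∫ t in Ioi 0, ip v (G t *ᵥ v))
    {φ : ℝ → ℝ → ℝ} {Φ : ℝ → ℝ} (hφ : ∀ t, 0 < t → MonotoneOn (φ t) (Ici 0))
    (hΦ0 : ∀ x, 0 ≤ x → 0 ≤ Φ x)
    (hφi : ∀ x, 0 ≤ x → IntegrableOn (fun t => φ t x) (Ioi 0))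
    (hΦ : ∀ x, 0 ≤ x → Φ x = k * ∫ t in Ioi 0, φ t x) {z : Fin n → ℝ} (hz : ∀ i, 0 ≤ z i)
    (hc : ∀ t, 0 < t → ∀ i, (Finset.univ.filter (fun j => φ t (z i) < |(hG t).eigenvalues j|)).card ≤
      (Finset.univ.filter (fun j => z i < z j)).card) {Q : ℝ} (hQ : 1 ≤ Q) :
    ∑ j, |hM.eigenvalues j| ^ Q ≤ ∑ i, Φ (z i) ^ Q := by
  have hQ0 : 0 < Q := by linarith
  set V : Matrix (Fin n) (Fin n) ℂ := (hM.eigenvectorUnitary : Matrix (Fin n) (Fin n) ℂ) with hVd
  have hV : Vᴴ * V = 1 := eigU_left M hM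
  set m := hM.eigenvalues with hm
  set y : Fin n → ℝ := fun i => (if 0 ≤ m i then 1 else -1) * |m i| ^ (Q - 1) with hy
  have hya : ∀ i, |y i| = |m i| ^ (Q - 1) := by
    intro i
    rw [hy]
    simp only
    rw [abs_mul, abs_of_nonneg (Real.rpow_nonneg (abs_nonneg (m i)) (Q - 1))]
    split_ifs <;> simp
  have hym : ∀ i, y i * m i = |m i| ^ Q := by
    intro i
    have e1 : |m i| ^ Q = |m i| ^ (Q - 1) * |m i| := by
      rcases eq_or_lt_of_le (abs_nonneg (m i)) with h0 | h0
      · rw [← h0, Real.zero_rpow hQ0.ne', mul_zero]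
      · rw [← Real.rpow_add_one h0.ne']; congr 1; ring
    rw [e1, hy]
    simp only
    split_ifs with h0
    · rw [abs_of_nonneg h0]; ring
    · rw [abs_of_neg (not_le.1 h0)]; ring
  have hdg : ∀ i, m i = k * ∫ t in Ioi 0, dg V (G t) i := by
    intro i
    have h1 : dg V M i = m i := eig_eq_dg M hM i
    rw [← h1, dg_ip, hrep]
    simp only [dg_ip]
  have hdi : ∀ i, IntegrableOn (fun t => dg V (G t) i) (Ioi 0) := by
    intro i
    simp only [dg_ip]
    exact hint _
  have e1 : ∑ i, |m i| ^ Q = k * ∫ t in Ioi 0, ∑ i, y i * dg V (G t) i := by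
    rw [integral_finsetSum _ fun i _ => (hdi i).const_mul (y i), Finset.mul_sum]
    refine Finset.sum_congr rfl fun i _ => ?_
    rw [integral_const_mul, ← hym i, hdg i]
    ring
  set a : Fin n → ℝ := fun i => |y i| with ha
  have hsumi : IntegrableOn (fun t => ∑ l, |y (Tuple.sort a l)| * φ t (z (Tuple.sort z l))) (Ioi 0) :=
    integrable_finsetSum _ fun l _ => (hφi _ (hz _)).const_mul _
  have e2 : k * ∫ t in Ioi 0, ∑ i, y i * dg V (G t) i ≤
      k * ∫ t in Ioi 0, ∑ l, |y (Tuple.sort a l)| * φ t (z (Tuple.sort z l)) := by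
    refine mul_le_mul_of_nonneg_left (setIntegral_mono_on
      (integrable_finsetSum _ fun i _ => (hdi i).const_mul (y i)) hsumi measurableSet_Ioi
      fun t ht => ?_) hk
    exact per_t (hG t) hV y z (φ t) (hφ t ht) hz (hc t ht)
  have e3 : k * ∫ t in Ioi 0, ∑ l, |y (Tuple.sort a l)| * φ t (z (Tuple.sort z l)) =
      ∑ l, |y (Tuple.sort a l)| * Φ (z (Tuple.sort z l)) := by
    rw [integral_finsetSum _ fun l _ => (hφi _ (hz _)).const_mul _, Finset.mul_sum]
    refine Finset.sum_congr rfl fun l _ => ?_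
    rw [integral_const_mul, hΦ _ (hz _)]
    ring
  have e4 : ∑ l, |y (Tuple.sort a l)| * Φ (z (Tuple.sort z l)) ≤
      (1 - 1 / Q) * ∑ i, |m i| ^ Q + 1 / Q * ∑ i, Φ (z i) ^ Q := by
    calc ∑ l, |y (Tuple.sort a l)| * Φ (z (Tuple.sort z l)) ≤
        ∑ l, ((1 - 1 / Q) * |m (Tuple.sort a l)| ^ Q + 1 / Q * Φ (z (Tuple.sort z l)) ^ Q) := by
          refine Finset.sum_le_sum fun l _ => ?_
          rw [hya]
          exact young (abs_nonneg _) (hΦ0 _ (hz _)) hQ
      _ = _ := by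
          rw [Finset.sum_add_distrib, ← Finset.mul_sum, ← Finset.mul_sum,
            Equiv.sum_comp (Tuple.sort a) (fun i => |m i| ^ Q),
            Equiv.sum_comp (Tuple.sort z) (fun i => Φ (z i) ^ Q)]
  rw [e3] at e2
  rw [e1] at e4 ⊢
  have h5 : 0 < 1 / Q := by positivity
  set T := k * ∫ t in Ioi 0, ∑ i, y i * dg V (G t) i
  set R := ∑ i, Φ (z i) ^ Q
  have h6 : 1 / Q * T ≤ 1 / Q * R := by nlinarith [e2, e4]
  exact le_of_mul_le_mul_left h6 h5

end Pool.Agent.J4.H52.PMI
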