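import Pool.Agent.N95.PM.PosThm

/-!
The power means with small positive exponents are not monotonic for any Schatten norm.
-/

set_option autoImplicit false

open Matrix
open scoped ENNReal BigOperators ComplexOrder

namespace Pool.Agent.J4.H52.PMI

open Pool.Agent.N95.PM

lemma eig_le {n : ℕ} (M : Matrix (Fin n) (Fin n) ℂ) (hM : M.IsHermitian) (c : ℝ)
    (h : (c • (1 : Matrix (Fin n) (Fin n) ℂ) - M).PosSemidef) (i : Fin n) :
    hM.eigenvalues i ≤ c := by
  have h2 := dg_nonneg (hM.eigenvectorUnitary : Matrix (Fin n) (Fin n) ℂ) _ h i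
  rw [dg_sub, dg_smul] at h2
  simp only [Pi.sub_apply, Pi.smul_apply, smul_eq_mul, eig_eq_dg M hM, dg_one _ (eigU_left M hM)] at h2
  linarith

/-- the numerical inequality -/
lemma numer {x a b : ℝ} (hx0 : 0 < x) (hx : x ≤ 361 / 1000) (_ha0 : 0 ≤ a) (ha : a ≤ 356 / 1000)
    (hb0 : 0 ≤ b) (hb : b ≤ 1 / 1000000) :
    (x - b * x) ^ 2 - 2 * (161 / 289) * ((x - b * x) * (1 - b * x)) + (1 - b * x) ^ 2 <
      (1 - a * x) ^ 2 := by
  have e : (1 - a * x) ^ 2 - ((x - b * x) ^ 2 - 2 * (161 / 289) * ((x - b * x) * (1 - b * x)) +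
      (1 - b * x) ^ 2) = x * (-2 * a + a ^ 2 * x - x * (1 - b) ^ 2 +
        2 * (161 / 289) * ((1 - b) * (1 - b * x)) + 2 * b - b ^ 2 * x) := by ring
  have hbx : b * x ≤ 1 / 1000000 := by nlinarith
  have hbx0 : 0 ≤ b * x := by positivity
  have h1 : 0 ≤ a ^ 2 * x := by positivity
  have h2 : x * (1 - b) ^ 2 ≤ 361 / 1000 := by
    have : (1 - b) ^ 2 ≤ 1 := by nlinarith
    nlinarith
  have h3 : 1 - 2 / 1000000 ≤ (1 - b) * (1 - b * x) := by nlinarith
  have h4 : b ^ 2 * x ≤ 1 / 1000000 := by nlinarith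
  have hpos : 0 < -2 * a + a ^ 2 * x - x * (1 - b) ^ 2 +
        2 * (161 / 289) * ((1 - b) * (1 - b * x)) + 2 * b - b ^ 2 * x := by
    linarith
  have := mul_pos hx0 hpos
  linarith

/-- small exponents -/
theorem small_not (p : ℝ) (hp : 0 < p) (hp1 : p ≤ 1 / 25) (q : ℝ≥0∞) (hq : 1 ≤ q) :
    ¬ PowerMeanMonotonic p q := by
  intro hmono
  have hp0 : p ≠ 0 := hp.ne'
  have hr : (25 : ℝ) ≤ 1 / p := by
    rw [le_div_iff₀ hp]
    linarith
  have hrp : 0 < 1 / p := by positivity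
  set α : ℝ := 24 / 25 with hα
  set e : ℝ := 1 / 10000 with he
  set μ : ℝ := 9211 / 10000 with hμ
  set x : ℝ := α ^ (1 / p) with hx
  set η : ℝ := e ^ (1 / p) with hη
  set m : ℝ := μ ^ (1 / p) with hm
  have hx0 : 0 < x := Real.rpow_pos_of_pos (by norm_num [hα]) _
  have hη0 : 0 < η := Real.rpow_pos_of_pos (by norm_num [he]) _
  have hm0 : 0 < m := Real.rpow_pos_of_pos (by norm_num [hμ]) _
  have hle : ∀ b : ℝ, 0 < b → b ≤ 1 → b ^ (1 / p) ≤ b ^ 25 := by
    intro b hb0 hb1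
    rw [← Real.rpow_natCast]
    exact Real.rpow_le_rpow_of_exponent_ge hb0 hb1 (by exact_mod_cast hr)
  have hx1 : x ≤ 361 / 1000 := (hle α (by norm_num [hα]) (by norm_num [hα])).trans
    (by norm_num [hα])
  obtain ⟨a, ha0, ha, hma⟩ : ∃ a : ℝ, 0 ≤ a ∧ a ≤ 356 / 1000 ∧ m = a * x := by
    refine ⟨(μ / α) ^ (1 / p), by positivity, (hle (μ / α) (by norm_num [hμ, hα])
      (by norm_num [hμ, hα])).trans (by norm_num [hμ, hα]), ?_⟩
    rw [hm, hx, ← Real.mul_rpow (by norm_num [hμ, hα]) (by norm_num [hα])]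
    congr 1
    norm_num [hμ, hα]
  obtain ⟨b, hb0, hb, hηb⟩ : ∃ b : ℝ, 0 ≤ b ∧ b ≤ 1 / 1000000 ∧ η = b * x := by
    refine ⟨(e / α) ^ (1 / p), by positivity, (hle (e / α) (by norm_num [he, hα])
      (by norm_num [he, hα])).trans (by norm_num [he, hα]), ?_⟩
    rw [hη, hx, ← Real.mul_rpow (by norm_num [he, hα]) (by norm_num [hα])]
    congr 1
    norm_num [he, hα]
  have hxp : x ^ p = α := by
    rw [hx, ← Real.rpow_mul (by norm_num [hα]), one_div_mul_cancel hp0, Real.rpow_one]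
  have hηp : η ^ p = e := by
    rw [hη, ← Real.rpow_mul (by norm_num [he]), one_div_mul_cancel hp0, Real.rpow_one]
  have hηx : η < x := by rw [hηb]; nlinarith
  have hη1 : η < 1 := by linarith
  have hcs : (15 / 17 : ℝ) ^ 2 + (8 / 17 : ℝ) ^ 2 = 1 := by norm_num
  set X : Matrix (Fin 2) (Fin 2) ℂ := rk (15 / 17) (8 / 17) x η with hX
  set Y : Matrix (Fin 2) (Fin 2) ℂ := rk 1 0 1 η with hY
  have hYpd : Y.PosDef := by
    rw [hY]
    unfold rk
    exact R2_pd _ _ _ (by norm_num) (by nlinarith)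
  have hXpd : X.PosDef := by
    rw [hX]
    unfold rk
    apply R2_pd
    · positivity
    · have := mul_pos hx0 hη0
      nlinarith
  have hXp : mpow X p = rk (15 / 17) (8 / 17) α e := by
    unfold mpow
    rw [hX, cfc_rk _ _ _ _ hcs, hxp, hηp]
  have hYp : mpow Y p = rk 1 0 1 e := by
    unfold mpow
    rw [hY, cfc_rk 1 0 1 η (by norm_num), Real.one_rpow, hηp]
  have hT : (11 / 20 : ℝ) • mpow X p + (1 - 11 / 20 : ℝ) • mpow Y p =
      R2 (11 / 20 * (α * (15 / 17) ^ 2 + e * (8 / 17) ^ 2) + 9 / 20)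
        (11 / 20 * ((α - e) * (15 / 17) * (8 / 17)))
        (11 / 20 * (α * (8 / 17) ^ 2 + e * (15 / 17) ^ 2) + 9 / 20 * e) := by
    rw [hXp, hYp]
    unfold rk
    rw [R2_smul, R2_smul, R2_add]
    congr 1 <;> ring
  set Z := powerMean p (11 / 20) X Y with hZ
  have hZT : Z = mpow (R2 (11 / 20 * (α * (15 / 17) ^ 2 + e * (8 / 17) ^ 2) + 9 / 20)
        (11 / 20 * ((α - e) * (15 / 17) * (8 / 17)))
        (11 / 20 * (α * (8 / 17) ^ 2 + e * (15 / 17) ^ 2) + 9 / 20 * e)) (1 / p) := by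
    rw [hZ]
    unfold powerMean
    rw [hT]
  have hZH : Z.IsHermitian := by
    rw [hZT]; exact mpow_isHermitian _ _
  have hV := one_unitary
  have hdZ : dg 1 Z 0 ≤ m := by
    rw [hZT]
    set T := R2 (11 / 20 * (α * (15 / 17) ^ 2 + e * (8 / 17) ^ 2) + 9 / 20)
        (11 / 20 * ((α - e) * (15 / 17) * (8 / 17)))
        (11 / 20 * (α * (8 / 17) ^ 2 + e * (15 / 17) ^ 2) + 9 / 20 * e) with hTd
    have hTH : T.IsHermitian := R2_herm _ _ _
    have hTp : T.PosSemidef := by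
      rw [hTd, hα, he]
      apply R2_psd <;> norm_num
    have hle2 : ∀ i, hTH.eigenvalues i ≤ μ := by
      intro i
      apply eig_le
      rw [hTd, R2_one, R2_smul, R2_sub, hα, he, hμ]
      apply R2_psd <;> norm_num
    have hge : ∀ i, 0 ≤ hTH.eigenvalues i := fun i => hTp.eigenvalues_nonneg i
    obtain ⟨P, hP0, hP1, _, _, hPf⟩ := dg_cfc T hTH _ hV
    unfold mpow
    rw [hPf]
    calc ∑ j, hTH.eigenvalues j ^ (1 / p) * P 0 j ≤ ∑ j, m * P 0 j := by
          refine Finset.sum_le_sum (fun j _ => mul_le_mul_of_nonneg_right ?_ (hP0 0 j))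
          exact Real.rpow_le_rpow (hge j) (hle2 j) hrp.le
      _ = m := by rw [← Finset.mul_sum, hP1, mul_one]
  have hdY : dg 1 Y 0 = 1 := by
    rw [hY]
    unfold rk
    rw [dg_id_zero]
    ring
  have hlow : 1 - m ≤ schatten q (Z - Y) := by
    refine le_trans ?_ (pinch q hq (Z - Y) (hZH.sub hYpd.1) _ hV)
    refine le_trans ?_ (le_norm_apply q hq _ 0)
    rw [dg_sub, Pi.sub_apply, hdY]
    refine le_trans ?_ (neg_le_abs _)
    linarith
  have hnum := numer hx0 hx1 ha0 ha hb0 hb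
  have hm1 : 0 < 1 - m := by rw [hma]; nlinarith
  have hup : schatten q (X - Y) < 1 - m := by
    have hK : 0 ≤ (x - η) ^ 2 - 2 * (161 / 289) * ((x - η) * (1 - η)) + (1 - η) ^ 2 := by
      nlinarith [sq_nonneg ((x - η) - (1 - η)), mul_pos (sub_pos.2 hηx) (sub_pos.2 hη1)]
    have hb' : schatten q (X - Y) ≤
        Real.sqrt ((x - η) ^ 2 - 2 * (161 / 289) * ((x - η) * (1 - η)) + (1 - η) ^ 2) := by
      rw [hX, hY]
      unfold rk
      rw [R2_sub]
      apply schatten_R2_le q hq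
      · exact Real.sqrt_nonneg _
      · rw [Real.sq_sqrt hK]
        apply le_of_eq
        ring
      · rw [Real.sq_sqrt hK]
        nlinarith [mul_pos (sub_pos.2 hηx) (sub_pos.2 hη1)]
    refine lt_of_le_of_lt hb' ?_
    rw [Real.sqrt_lt' hm1, hma, hηb]
    exact hnum
  have h := hmono 2 X Y hXpd hYpd (show (11 / 20 : ℝ) ∈ Set.Icc (0 : ℝ) 1 by
    constructor <;> norm_num) (show (1 : ℝ) ∈ Set.Icc (0 : ℝ) 1 by constructor <;> norm_num)
    (by norm_num)
  simp only at h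
  rw [powerMean_one p hp0 X Y hXpd] at h
  linarith

end Pool.Agent.J4.H52.PMI
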