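import Pool.Agent.J4.H52.PMI.Core
import Pool.Agent.N95.PM.Half

/-!
Powers of positive matrices through the integral representations.
-/

set_option autoImplicit false

open Matrix MeasureTheory Set
open scoped ComplexOrder ENNReal

namespace Pool.Agent.J4.H52.PMI

open Pool.Agent.N95.PM

variable {n : ℕ}

/-- the spectral weights of a vector -/
lemma spec {M : Matrix (Fin n) (Fin n) ℂ} (hM : M.IsHermitian) (v : Fin n → ℂ) :
    ∃ w : Fin n → ℝ, (∀ j, 0 ≤ w j) ∧ (∑ j, w j = ip v v) ∧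
      (∑ j, hM.eigenvalues j * w j = ip v (M *ᵥ v)) ∧
      ∀ f : ℝ → ℝ, ip v (cfc f M *ᵥ v) = ∑ j, f (hM.eigenvalues j) * w j := by
  have hU1 := eigU_left M hM
  have hcf : ∀ f : ℝ → ℝ, cfc f M = (hM.eigenvectorUnitary : Matrix (Fin n) (Fin n) ℂ) *
      diagonal (fun j => ((f (hM.eigenvalues j) : ℝ) : ℂ)) *
      (hM.eigenvectorUnitary : Matrix (Fin n) (Fin n) ℂ)ᴴ := by
    intro f
    rw [hM.cfc_eq f]
    unfold IsHermitian.cfc
    rw [Unitary.conjStarAlgAut_apply]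
    rfl
  have hid : cfc (fun x : ℝ => x) M = M := cfc_id' ℝ M hM.isSelfAdjoint
  have hone : cfc (fun _ : ℝ => (1 : ℝ)) M = 1 := cfc_const_one ℝ M hM.isSelfAdjoint
  generalize (hM.eigenvectorUnitary : Matrix (Fin n) (Fin n) ℂ) = U at *
  generalize hM.eigenvalues = l at *
  have key : ∀ f : ℝ → ℝ, ip v (cfc f M *ᵥ v) = ∑ j, f (l j) * Complex.normSq ((Uᴴ *ᵥ v) j) := by
    intro f
    have e : star v ᵥ* U = star (Uᴴ *ᵥ v) := by
      rw [star_mulVec, conjTranspose_conjTranspose]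
    rw [hcf f]
    unfold ip
    rw [← mulVec_mulVec, ← mulVec_mulVec, dotProduct_mulVec, e, dotProduct, Complex.re_sum]
    refine Finset.sum_congr rfl fun j _ => ?_
    rw [mulVec_diagonal, Pi.star_apply, RCLike.star_def, mul_left_comm,
      ← Complex.normSq_eq_conj_mul_self, ← Complex.ofReal_mul, Complex.ofReal_re]
  refine ⟨fun j => Complex.normSq ((Uᴴ *ᵥ v) j), fun j => Complex.normSq_nonneg _, ?_, ?_, key⟩
  · have h := key (fun _ => 1)
    rw [hone, one_mulVec] at h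
    rw [h]
    exact Finset.sum_congr rfl fun j _ => by rw [one_mul]
  · have h := key (fun x => x)
    rw [hid] at h
    exact h.symm

/-- the resolvent -/
noncomputable def res (M : Matrix (Fin n) (Fin n) ℂ) (t : ℝ) : Matrix (Fin n) (Fin n) ℂ :=
  cfc (fun x : ℝ => (t + x)⁻¹) M

lemma res_mul {M : Matrix (Fin n) (Fin n) ℂ} (hM : M.PosSemidef) {t : ℝ} (ht : 0 < t)
    (v : Fin n → ℂ) : (M + t • (1 : Matrix (Fin n) (Fin n) ℂ)) *ᵥ (res M t *ᵥ v) = v := by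
  have hsp : ∀ x ∈ spectrum ℝ M, 0 ≤ x := by
    intro x hx
    rw [hM.1.spectrum_real_eq_range_eigenvalues] at hx
    obtain ⟨i, rfl⟩ := hx
    exact hM.eigenvalues_nonneg i
  have e1 : M + t • (1 : Matrix (Fin n) (Fin n) ℂ) = cfc (fun x : ℝ => t + x) M := by
    rw [cfc_const_add t (fun x : ℝ => x) M (cont_spec _ _) hM.1.isSelfAdjoint,
      cfc_id' ℝ M hM.1.isSelfAdjoint, Algebra.algebraMap_eq_smul_one, add_comm]
  rw [mulVec_mulVec, e1, res, ← cfc_mul _ _ M (cont_spec _ _) (cont_spec _ _)]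
  have e2 : cfc (fun x : ℝ => (t + x) * (t + x)⁻¹) M = 1 := by
    rw [← cfc_const_one ℝ M hM.1.isSelfAdjoint]
    refine cfc_congr fun x hx => ?_
    exact mul_inv_cancel₀ (by have := hsp x hx; positivity)
  rw [e2, one_mulVec]

lemma shift_form (M : Matrix (Fin n) (Fin n) ℂ) (t : ℝ) (x y : Fin n → ℂ) :
    ip x ((M + t • (1 : Matrix (Fin n) (Fin n) ℂ)) *ᵥ y) = ip x (M *ᵥ y) + t * ip x y := by
  rw [add_mulVec, smul_mulVec, one_mulVec, ip_add_right, ip_smul_right]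

lemma smul_herm (r : ℝ) {M : Matrix (Fin n) (Fin n) ℂ} (hM : M.IsHermitian) :
    (r • M).IsHermitian := by
  rw [Matrix.IsHermitian, Matrix.conjTranspose_smul, hM.eq]
  simp

lemma shift_herm {M : Matrix (Fin n) (Fin n) ℂ} (hM : M.IsHermitian) (t : ℝ) :
    (M + t • (1 : Matrix (Fin n) (Fin n) ℂ)).IsHermitian :=
  hM.add (smul_herm t Matrix.isHermitian_one)

lemma ip_psd {M : Matrix (Fin n) (Fin n) ℂ} (hM : M.PosSemidef) (x : Fin n → ℂ) :
    0 ≤ ip x (M *ᵥ x) := by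
  have := hM.re_dotProduct_nonneg x
  exact this

/-- the resolvents at one point -/
lemma pointwise {A B : Matrix (Fin n) (Fin n) ℂ} (hA : A.PosSemidef) (hB : B.PosSemidef)
    {d t s : ℝ} (hd : 0 < d) (ht : 0 < t) (hs0 : 0 ≤ s) (hs1 : s ≤ 1)
    (h1 : ∀ x, ip x (A *ᵥ x) ≤ ip x (B *ᵥ x) + d * ip x x)
    (h2 : ∀ x, ip x (B *ᵥ x) ≤ ip x (A *ᵥ x) + d * ip x x) (v : Fin n → ℂ) :
    0 ≤ s * ip v (res A t *ᵥ v) + (1 - s) * ip v (res B t *ᵥ v) -
      ip v (res (s • A + (1 - s) • B) t *ᵥ v) ∧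
    t ^ 2 * (s * ip v (res A t *ᵥ v) + (1 - s) * ip v (res B t *ᵥ v) -
      ip v (res (s • A + (1 - s) • B) t *ᵥ v)) ≤ s * (1 - s) * (d ^ 2 / (d + t) * ip v v) := by
  have hs1' : 0 ≤ 1 - s := by linarith
  have hCp : (s • A + (1 - s) • B).PosSemidef := (hA.smul hs0).add (hB.smul hs1')
  have hP := shift_herm hA.1 t
  have hQ := shift_herm hB.1 t
  have ea := res_mul hA ht v
  have eb := res_mul hB ht v
  have ec := res_mul hCp ht v
  have hCe : (s • A + (1 - s) • B) + t • (1 : Matrix (Fin n) (Fin n) ℂ) =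
      s • (A + t • (1 : Matrix (Fin n) (Fin n) ℂ)) +
        (1 - s) • (B + t • (1 : Matrix (Fin n) (Fin n) ℂ)) := by module
  rw [hCe] at ec
  generalize res A t *ᵥ v = a at *
  generalize res (s • A + (1 - s) • B) t *ᵥ v = c at *
  have hgB := fun y => res_mul hB ht y
  have hgA := fun y => res_mul hA ht y
  generalize res B t *ᵥ v = b at *
  set P := A + t • (1 : Matrix (Fin n) (Fin n) ℂ) with hPd
  set Q := B + t • (1 : Matrix (Fin n) (Fin n) ℂ) with hQd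
  have fP : ∀ x, ip x (P *ᵥ x) = ip x (A *ᵥ x) + t * ip x x := fun x => shift_form A t x x
  have fQ : ∀ x, ip x (Q *ᵥ x) = ip x (B *ᵥ x) + t * ip x x := fun x => shift_form B t x x
  have nA := ip_psd hA
  have nB := ip_psd hB
  have nn := fun x : Fin n → ℂ => ip_self_nonneg x
  have H1 : ∀ x, t * ip x (Q *ᵥ x) ≤ (d + t) * ip x (P *ᵥ x) := by
    intro x
    rw [fP, fQ]
    have i1 := mul_le_mul_of_nonneg_left (h2 x) ht.le
    have i2 := mul_nonneg hd.le (nA x)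
    nlinarith [i1, i2]
  have H2 : ∀ x, t * ip x (P *ᵥ x) ≤ (d + t) * ip x (Q *ᵥ x) := by
    intro x
    rw [fP, fQ]
    have i1 := mul_le_mul_of_nonneg_left (h1 x) ht.le
    have i2 := mul_nonneg hd.le (nB x)
    nlinarith [i1, i2]
  have g := gap hP hQ hs0 hs1 (fun x => by rw [fP]; exact add_nonneg (nA x) (mul_nonneg ht.le (nn x)))
    (fun x => by rw [fQ]; exact add_nonneg (nB x) (mul_nonneg ht.le (nn x))) ea eb ec
  refine ⟨g.1, ?_⟩
  have b1 := stepB hP hQ hd ht H1 H2 (fun x => by rw [fQ]; linarith [nB x]) ea eb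
    (hgB (P *ᵥ (a - b) - Q *ᵥ (a - b)))
  have b2 := stepB hQ hP hd ht H2 H1 (fun x => by rw [fP]; linarith [nA x]) eb ea
    (hgA (Q *ᵥ (b - a) - P *ᵥ (b - a)))
  have e : ip (b - a) (Q *ᵥ (b - a)) = ip (a - b) (Q *ᵥ (a - b)) := by
    have h3 := quad hQ b a 1 (-1)
    have h4 := quad hQ b a (-1) 1
    have e1 : (1 : ℝ) • b + (-1 : ℝ) • a = b - a := by rw [one_smul, neg_one_smul, sub_eq_add_neg]
    have e2 : (-1 : ℝ) • b + (1 : ℝ) • a = a - b := by
      rw [one_smul, neg_one_smul]; abel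
    rw [e1] at h3
    rw [e2] at h4
    rw [h3, h4]; ring
  rw [e] at b2
  set N := d ^ 2 / (d + t) * ip v v with hN
  have h5 := mul_le_mul_of_nonneg_left g.2 (by positivity : 0 ≤ t ^ 2)
  have h6 : t ^ 2 * (s * (1 - s) * ((1 - s) * ip (a - b) (P *ᵥ (a - b)) +
      s * ip (a - b) (Q *ᵥ (a - b)))) ≤ s * (1 - s) * N := by
    have i1 := mul_le_mul_of_nonneg_left b1 hs1'
    have i2 := mul_le_mul_of_nonneg_left b2 hs0
    have i3 : (1 - s) * (t ^ 2 * ip (a - b) (P *ᵥ (a - b))) +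
        s * (t ^ 2 * ip (a - b) (Q *ᵥ (a - b))) ≤ N := by nlinarith [i1, i2]
    have i4 := mul_le_mul_of_nonneg_left i3 (mul_nonneg hs0 hs1')
    nlinarith [i4]
  linarith

/-- the resolvent is antitone -/
lemma res_anti {X Y : Matrix (Fin n) (Fin n) ℂ} (hX : X.PosSemidef) (hY : Y.PosSemidef)
    {t m : ℝ} (ht : 0 < t) (hm : 0 ≤ m)
    (h : ∀ x, ip x (X *ᵥ x) ≤ ip x (Y *ᵥ x) + m * ip x x) (v : Fin n → ℂ) :
    ip v (res Y (t + m) *ᵥ v) ≤ ip v (res X t *ᵥ v) := by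
  have ea := res_mul hX ht v
  have eb := res_mul hY (by linarith : 0 < t + m) v
  generalize res X t *ᵥ v = a at *
  generalize res Y (t + m) *ᵥ v = b at *
  have hP := shift_herm hX.1 t
  have q : 0 ≤ ip ((1 : ℝ) • a + (-1 : ℝ) • b)
      ((X + t • (1 : Matrix (Fin n) (Fin n) ℂ)) *ᵥ ((1 : ℝ) • a + (-1 : ℝ) • b)) := by
    rw [shift_form]
    exact add_nonneg (ip_psd hX _) (mul_nonneg ht.le (ip_self_nonneg _))
  rw [quad hP] at q
  have k1 : ip a ((X + t • (1 : Matrix (Fin n) (Fin n) ℂ)) *ᵥ a) = ip v a := by rw [ea, ip_comm]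
  have k2 : ip a ((X + t • (1 : Matrix (Fin n) (Fin n) ℂ)) *ᵥ b) = ip v b := by
    rw [← ip_mulVec hP, ea]
  have k3 : ip b ((X + t • (1 : Matrix (Fin n) (Fin n) ℂ)) *ᵥ b) ≤ ip v b := by
    have k4 : ip b ((Y + (t + m) • (1 : Matrix (Fin n) (Fin n) ℂ)) *ᵥ b) = ip v b := by
      rw [eb, ip_comm]
    rw [shift_form] at k4 ⊢
    have := h b
    linarith
  rw [k1, k2] at q
  linarith

end Pool.Agent.J4.H52.PMI
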